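import Pool.Agent.Lib.LU3.MkRF2

/-!
# LU3: the steps in the second parameter `z`
-/

set_option autoImplicit false

open Polynomial

namespace Pool.Agent.LU3

open Pool.Agent.H15JM (RVal)
open Pool.Agent.LU1

universe u

variable {k Ω : Type u} [Field k] [Field Ω] [Algebra k Ω] {v : RVal Ω} {r : ℕ}

/-! ### multiplicative families -/

namespace MonD

variable {Γ : AddSubgroup ℝ} {X : ℝ → Ω} (H : MonD v Γ X)
include H

theorem zero : X 0 = 1 := by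
  have h := H.add 0 Γ.zero_mem 0 Γ.zero_mem
  rw [add_zero] at h
  exact (mul_right_cancel₀ (H.ne 0 Γ.zero_mem) (by rw [one_mul]; exact h)).symm

theorem neg {γ : ℝ} (h : γ ∈ Γ) : X (-γ) = (X γ)⁻¹ := by
  have h1 := H.add γ h (-γ) (Γ.neg_mem h)
  rw [add_neg_cancel, H.zero] at h1
  exact (inv_eq_of_mul_eq_one_right h1.symm).symm

theorem nsmul {γ : ℝ} (h : γ ∈ Γ) (n : ℕ) : X (n * γ) = X γ ^ n := by
  induction n with
  | zero => simp [H.zero]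
  | succ n ih =>
    have h1 : ((n + 1 : ℕ) : ℝ) * γ = n * γ + γ := by push_cast; ring
    have h2 : (n : ℝ) * γ ∈ Γ := by
      rw [← nsmul_eq_mul]; exact Γ.nsmul_mem h n
    rw [h1, H.add _ h2 _ h, ih, pow_succ]

theorem zsmul {γ : ℝ} (h : γ ∈ Γ) (n : ℤ) : X (n * γ) = X γ ^ n := by
  cases n with
  | ofNat n => simpa using H.nsmul h n
  | negSucc n =>
    have h2 : ((n + 1 : ℕ) : ℝ) * γ ∈ Γ := by
      rw [← nsmul_eq_mul]; exact Γ.nsmul_mem h _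
    have h1 : ((Int.negSucc n : ℤ) : ℝ) * γ = -(((n + 1 : ℕ) : ℝ) * γ) := by
      push_cast; ring
    rw [h1, H.neg h2, H.nsmul h, zpow_negSucc]

end MonD

open Classical in
/-- The monomials `X'(γ + l v(Y)) = X(γ) Y^l w^(-s γ l)`. -/
noncomputable def chi2 (v : RVal Ω) (Γ : AddSubgroup ℝ) (X : ℝ → Ω) (Y w : Ω)
    (s : ℝ → ℤ → ℤ) (γ' : ℝ) : Ω :=
  if h : ∃ p : ℝ × ℤ, p.1 ∈ Γ ∧ γ' = p.1 + p.2 * v Y then
    X h.choose.1 * Y ^ h.choose.2 * w ^ (-(s h.choose.1 h.choose.2))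
  else 1

section chi

variable {Γ : AddSubgroup ℝ} {X : ℝ → Ω} {Y w : Ω} {q : ℕ} {s : ℝ → ℤ → ℤ}

theorem chi2_w_ne (hY : Y ≠ 0) (hw : Y ^ q = X (q * v Y) * w) : w ≠ 0 := by
  rintro rfl
  rw [mul_zero] at hw
  exact pow_ne_zero _ hY hw

theorem chi2_eq (H : MonD v Γ X) (hY : Y ≠ 0) (hL : LatData Γ (v Y) q s)
    (hw : Y ^ q = X (q * v Y) * w) {γ : ℝ} (hγ : γ ∈ Γ) (l : ℤ) :
    chi2 v Γ X Y w s (γ + l * v Y) = X γ * Y ^ l * w ^ (-(s γ l)) := by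
  have hw0 : w ≠ 0 := chi2_w_ne hY hw
  have hex : ∃ p : ℝ × ℤ, p.1 ∈ Γ ∧ γ + l * v Y = p.1 + p.2 * v Y := ⟨(γ, l), hγ, rfl⟩
  rw [chi2, dif_pos hex]
  obtain ⟨h1, h2⟩ := hex.choose_spec
  set δ := hex.choose.1 with hδ
  set m := hex.choose.2 with hm
  have h3 := hL.same hγ h1 h2
  set t := s γ l - s δ m with ht
  have h4 : δ = γ + t * (q * v Y) := by
    have h5 : (l : ℝ) - m = q * t := by exact_mod_cast h3
    have h6 : δ = γ + ((l : ℝ) - m) * v Y := by linarith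
    rw [h6, h5]; ring
  have h7 : X δ = X γ * X (q * v Y) ^ t := by
    rw [h4, H.add γ hγ _ ?_, H.zsmul hL.q_mem]
    have := Γ.zsmul_mem hL.q_mem t
    rwa [zsmul_eq_mul] at this
  have h8 : s δ m = s γ l - t := by rw [ht]; ring
  have h9 : l = m + q * t := by linarith
  have hχ0 := H.ne _ hL.q_mem
  rw [h7, h8, h9, zpow_add₀ hY, zpow_mul, zpow_natCast, hw, mul_zpow, neg_sub, zpow_sub₀ hw0,
    zpow_neg]
  field_simp

variable (H : MonD v Γ X) (hY : Y ≠ 0) (hL : LatData Γ (v Y) q s)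
  (hw : Y ^ q = X (q * v Y) * w)
include H hY hL hw

theorem chi2_v_w : v w = 0 := by
  have hw0 := chi2_w_ne hY hw
  have h1 := congrArg v hw
  rw [v.map_pow hY, v.map_mul (H.ne _ hL.q_mem) hw0, H.val _ hL.q_mem] at h1
  linarith

theorem chi2_monD : MonD v (Γ ⊔ AddSubgroup.zmultiples (v Y)) (chi2 v Γ X Y w s) := by
  have hw0 := chi2_w_ne hY hw
  refine ⟨fun γ' hγ' => ?_, fun γ' hγ' δ' hδ' => ?_, fun γ' hγ' => ?_⟩
  · obtain ⟨γ, hγ, l, rfl⟩ := BF.mem_sup hγ'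
    rw [chi2_eq H hY hL hw hγ]
    exact mul_ne_zero (mul_ne_zero (H.ne γ hγ) (zpow_ne_zero _ hY)) (zpow_ne_zero _ hw0)
  · obtain ⟨γ, hγ, l, rfl⟩ := BF.mem_sup hγ'
    obtain ⟨δ, hδ, m, rfl⟩ := BF.mem_sup hδ'
    have h1 : γ + l * v Y + (δ + m * v Y) = (γ + δ) + ((l + m : ℤ) : ℝ) * v Y := by
      push_cast; ring
    rw [h1, chi2_eq H hY hL hw (Γ.add_mem hγ hδ), chi2_eq H hY hL hw hγ,
      chi2_eq H hY hL hw hδ, H.add γ hγ δ hδ, hL.s_add γ hγ δ hδ, neg_add, zpow_add₀ hY,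
      zpow_add₀ hw0]
    ring
  · obtain ⟨γ, hγ, l, rfl⟩ := BF.mem_sup hγ'
    rw [chi2_eq H hY hL hw hγ,
      v.map_mul (mul_ne_zero (H.ne γ hγ) (zpow_ne_zero _ hY)) (zpow_ne_zero _ hw0),
      v.map_mul (H.ne γ hγ) (zpow_ne_zero _ hY), H.val γ hγ, v.map_zpow hY, v.map_zpow hw0,
      chi2_v_w H hY hL hw, mul_zero, add_zero]

/-- `X(γ) Y^l = X'(γ + l v(Y)) w^(s γ l)`. -/
theorem chi2_mul {γ : ℝ} (hγ : γ ∈ Γ) (l : ℤ) :
    X γ * Y ^ l = chi2 v Γ X Y w s (γ + l * v Y) * w ^ (s γ l) := by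
  have hw0 := chi2_w_ne hY hw
  rw [chi2_eq H hY hL hw hγ, mul_assoc, ← zpow_add₀ hw0, neg_add_cancel, zpow_zero, mul_one]

end chi

/-! ### frames over frames -/

section Over

variable {Ω₀ : IntermediateField k Ω} {z : Ω}

/-- The two-parameter frame `F'` lies over the frame `B'`. -/
structure Ov (F' : RF2 k v) (B' : BF k (resv v Ω₀)) : Prop where
  mem : ∀ f ∈ B'.R, (f : Ω) ∈ F'.R
  mono : ∀ f : Ω₀, B'.Mono f → F'.Mono (f : Ω)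
  un : ∀ f : Ω₀, B'.Un f → F'.Un (f : Ω)
  yhi : ∀ f ∈ B'.R, VPos (resv v Ω₀) f → F'.YHi (f : Ω)

theorem coe_monD (B : BF k (resv v Ω₀)) : MonD v B.Γ fun γ => ((B.χ γ : Ω₀) : Ω) := by
  refine ⟨fun γ hγ h0 => B.χ_ne γ hγ (Subtype.ext h0), fun γ hγ δ hδ => ?_, fun γ hγ => ?_⟩
  · rw [B.χ_add γ hγ δ hδ]; rfl
  · exact B.χ_val γ hγ

theorem coe_ne {f : Ω₀} (h : f ≠ 0) : (f : Ω) ≠ 0 := fun h0 => h (Subtype.ext h0)

/-- Elements of a rational frame in terms of generators. -/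
theorem coe_mem_of_rat {B : BF k (resv v Ω₀)} (hr : BRat B) (R : Subalgebra k Ω)
    (hloc : ∀ f ∈ R, f ≠ 0 → v f = 0 → f⁻¹ ∈ R)
    (hχ : ∀ γ ∈ B.Γ, 0 ≤ γ → ((B.χ γ : Ω₀) : Ω) ∈ R) (hy : (B.y : Ω) ∈ R) :
    ∀ f ∈ B.R, (f : Ω) ∈ R := by
  have key : ∀ f ∈ Algebra.adjoin k (B.χ '' {γ | γ ∈ B.Γ ∧ 0 ≤ γ} ∪ {B.y}), (f : Ω) ∈ R := by
    intro f hf
    induction hf using Algebra.adjoin_induction with
    | mem x hx =>
      rcases hx with ⟨γ, ⟨hγ, h0⟩, rfl⟩ | rfl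
      · exact hχ γ hγ h0
      · exact hy
    | algebraMap c => exact R.algebraMap_mem c
    | add x y _ _ hx hy => exact R.add_mem hx hy
    | mul x y _ _ hx hy => exact R.mul_mem hx hy
  intro f hf
  rw [hr] at hf
  obtain ⟨a, ha, b, hb, hb0, hvb, rfl⟩ := hf
  have h1 : ((a / b : Ω₀) : Ω) = (a : Ω) * (b : Ω)⁻¹ := by
    rw [div_eq_mul_inv]; rfl
  rw [h1]
  exact R.mul_mem (key a ha) (hloc _ (key b hb) (coe_ne hb0) hvb)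

theorem coe_quo_of_rat {B : BF k (resv v Ω₀)} (hr : BRat B) (E : IntermediateField k Ω)
    (hχ : ∀ γ ∈ B.Γ, ((B.χ γ : Ω₀) : Ω) ∈ E) (hy : (B.y : Ω) ∈ E) :
    ∀ f ∈ B.R, (f : Ω) ∈ E :=
  coe_mem_of_rat hr E.toSubalgebra (fun _ hf _ _ => E.inv_mem hf)
    (fun γ hγ _ => hχ γ hγ) hy

theorem ov_of {F' : RF2 k v} {B' : BF k (resv v Ω₀)} (hr : BRat B')
    (hΓ : ∀ γ ∈ B'.Γ, γ ∈ F'.Γ) (hχ : ∀ γ ∈ B'.Γ, F'.Un (((B'.χ γ : Ω₀) : Ω) / F'.χ γ))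
    (hy : F'.y = (B'.y : Ω)) : Ov F' B' := by
  have h1 : ∀ γ ∈ B'.Γ, ((B'.χ γ : Ω₀) : Ω) = F'.χ γ * (((B'.χ γ : Ω₀) : Ω) / F'.χ γ) :=
    fun γ hγ => by rw [mul_div_cancel₀ _ (F'.χ_ne _ (hΓ γ hγ))]
  have hmem : ∀ f ∈ B'.R, (f : Ω) ∈ F'.R := by
    refine coe_mem_of_rat hr F'.R (fun f hf h0 h1 => F'.loc hf h0 h1) (fun γ hγ h0 => ?_) ?_
    · rw [h1 γ hγ]
      exact F'.R.mul_mem (F'.χ_mem (hΓ γ hγ) h0) (hχ γ hγ).1
    · rw [← hy]; exact F'.y_mem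
  have hun : ∀ f : Ω₀, B'.Un f → F'.Un (f : Ω) := fun f hf =>
    ⟨hmem f hf.1, coe_ne hf.2.1, hf.2.2⟩
  refine ⟨hmem, fun f hf => ?_, hun, fun f hf hv => ?_⟩
  · obtain ⟨γ, hγ, u, hu, rfl⟩ := BF.mono_iff.1 hf
    refine RF2.mono_iff.2 ⟨γ, hΓ γ hγ, (((B'.χ γ : Ω₀) : Ω) / F'.χ γ) * (u : Ω),
      (hχ γ hγ).mul (hun u hu), ?_⟩
    rw [← mul_assoc, ← h1 γ hγ]; rfl
  · obtain ⟨γ, hγ, h0, a, ha, b, hb, rfl⟩ := B'.gen f hf hv
    have h2 : ((B'.χ γ * a + B'.y * b : Ω₀) : Ω) =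
        F'.χ γ * ((((B'.χ γ : Ω₀) : Ω) / F'.χ γ) * (a : Ω)) + F'.y * (b : Ω) := by
      rw [← mul_assoc, ← h1 γ hγ, hy]; rfl
    rw [h2]
    exact (RF2.YHi.χ (hΓ γ hγ) h0 (F'.R.mul_mem (hχ γ hγ).1 (hmem a ha))).add
      (RF2.YHi.y (hmem b hb))

theorem IsRF2.ov {F : RF2 k v} {B : BF k (resv v Ω₀)} (h : IsRF2 F B z) : Ov F B := by
  refine ov_of h.rat (fun γ hγ => by rw [h.Γ_eq]; exact hγ) (fun γ hγ => ?_) h.y_eq
  rw [h.χ_eq γ hγ, div_self (coe_ne (B.χ_ne γ hγ))]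
  exact RF2.Un.one

theorem coe_den {F F' : RF2 k v} {B B' : BF k (resv v Ω₀)} (hF : Ov F B) (hF' : Ov F' B')
    (hd : BDen B B') : ∀ f ∈ B'.R, (f : Ω) ∈ Den F.R F' := by
  intro f hf
  obtain ⟨a, ha, b, hb, hbm, rfl⟩ := hd f hf
  exact ⟨a, hF.mem a ha, b, hF.mem b hb, hF'.mono b hbm, rfl⟩

theorem coe_den_χ {F F' : RF2 k v} {B B' : BF k (resv v Ω₀)} (hF : Ov F B) (hF' : Ov F' B')
    (hd : BDen B B') {γ : ℝ} (hγ : γ ∈ B'.Γ) : ((B'.χ γ : Ω₀) : Ω) ∈ Den F.R F' := by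
  rcases le_total 0 γ with h0 | h0
  · exact coe_den hF hF' hd _ (B'.χ_mem γ hγ h0)
  · have h1 := coe_den hF hF' hd _ (B'.χ_mem (-γ) (B'.Γ.neg_mem hγ) (neg_nonneg.2 h0))
    have h2 := den_inv h1 (hF'.mono _ (BF.Mono.χ (B'.Γ.neg_mem hγ)))
    have h3 : ((B'.χ γ : Ω₀) : Ω) = ((B'.χ (-γ) : Ω₀) : Ω)⁻¹ := by
      rw [B'.χ_neg hγ, IntermediateField.coe_inv, inv_inv]
    rw [h3]; exact h2

/-- The part of `F.Le F'` that does not concern the new parameters. -/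
theorem le_of_ble {F F' : RF2 k v} {B B' : BF k (resv v Ω₀)} (hF : IsRF2 F B z)
    (hF' : Ov F' B') (hB : BLe B B') (hΓ : ∀ γ ∈ B'.Γ, γ ∈ F'.Γ)
    (hχ' : ∀ γ ∈ B'.Γ, F'.Un (((B'.χ γ : Ω₀) : Ω) / F'.χ γ)) (hy' : F'.y = (B'.y : Ω))
    (hz : z ∈ F'.R) (dχ : ∀ γ ∈ F'.Γ, 0 ≤ γ → F'.χ γ ∈ Den F.R F')
    (dz : F'.z ∈ Den F.R F') : F.Le F' := by
  have hBΓ : ∀ γ ∈ F.Γ, γ ∈ B.Γ := fun γ hγ => by rw [← hF.Γ_eq]; exact hγ
  refine RF2.le_of (fun γ hγ => hΓ γ (hB.ext.Γ_le γ (hBΓ γ hγ))) (fun γ hγ => ?_) ?_ ?_ dχ ?_ dz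
  · have h1 := hB.ext.χ_un γ (hBΓ γ hγ)
    have h2 := (hF'.un _ h1).mul (hχ' γ (hB.ext.Γ_le γ (hBΓ γ hγ)))
    have h3 : ((B.χ γ / B'.χ γ : Ω₀) : Ω) * (((B'.χ γ : Ω₀) : Ω) / F'.χ γ) =
        F.χ γ / F'.χ γ := by
      rw [hF.χ_eq γ (hBΓ γ hγ), IntermediateField.coe_div,
        div_mul_div_cancel₀ (coe_ne (B'.χ_ne γ (hB.ext.Γ_le γ (hBΓ γ hγ))))]
    rwa [h3] at h2
  · rw [hF.y_eq]; exact hF'.mem _ (hB.ext.le B.y_mem)
  · rw [hF.z_eq]; exact hz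
  · rw [hy']; exact coe_den hF.ov hF' hB.den _ B'.y_mem

/-- The step `z' = (z - ψ) / χ'(a) - c`. -/
theorem exists_z0 (hC : Core k v r Ω₀ z) {F : RF2 k v} {B B' : BF k (resv v Ω₀)}
    (hF : IsRF2 F B z) (hB : BLe B B') (hr : BRat B') {ψ : Ω₀} (hψ : ψ ∈ B'.R) {a : ℝ}
    (ha : a ∈ B'.Γ) (ha0 : 0 ≤ a) {c : k} {z' : Ω}
    (hz' : z' = (z - (ψ : Ω)) / ((B'.χ a : Ω₀) : Ω) - algebraMap k Ω c) (hpos : 0 < v z') :
    ∃ F' : RF2 k v, F.Le F' ∧ IsRF2 F' B' z' := by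
  have hχa : ((B'.χ a : Ω₀) : Ω) ≠ 0 := coe_ne (B'.χ_ne a ha)
  have hz : z = (ψ : Ω) + ((B'.χ a : Ω₀) : Ω) * (algebraMap k Ω c + z') := by
    rw [hz']; field_simp; ring
  have hz0 : z' ≠ 0 := by
    intro h0
    rw [h0, add_zero] at hz
    apply hC.z_not
    rw [hz]
    exact Ω₀.add_mem ψ.2 (Ω₀.mul_mem (B'.χ a).2 (Ω₀.algebraMap_mem c))
  have hX := coe_monD B'
  have hΓ : ∀ γ ∈ F.Γ, γ ∈ B'.Γ := fun γ hγ => hB.ext.Γ_le γ (by rw [← hF.Γ_eq]; exact hγ)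
  set R := Algebra.adjoin k ((fun γ => ((B'.χ γ : Ω₀) : Ω)) '' {γ | γ ∈ B'.Γ} ∪
    {(B'.y : Ω), z'}) with hR
  have hχR : ∀ γ ∈ B'.Γ, ((B'.χ γ : Ω₀) : Ω) ∈ quo R := fun γ hγ =>
    le_quo (Algebra.subset_adjoin (Or.inl ⟨γ, hγ, rfl⟩))
  have hyR : (B'.y : Ω) ∈ quo R := le_quo (Algebra.subset_adjoin (Or.inr (Or.inl rfl)))
  have hzR : z' ∈ quo R := le_quo (Algebra.subset_adjoin (Or.inr (Or.inr rfl)))
  have hBR := coe_quo_of_rat hr (quo R) hχR hyR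
  have hg : ∀ f ∈ F.χ '' {γ | γ ∈ F.Γ} ∪ {F.y, F.z}, f ∈ quo R := by
    rintro f (⟨γ, hγ, rfl⟩ | rfl | rfl)
    · have hγ' : γ ∈ B.Γ := by rw [← hF.Γ_eq]; exact hγ
      have h1 := hB.ext.χ_un γ hγ'
      have h2 : F.χ γ = ((B.χ γ / B'.χ γ : Ω₀) : Ω) * ((B'.χ γ : Ω₀) : Ω) := by
        rw [hF.χ_eq γ hγ', IntermediateField.coe_div, div_mul_cancel₀ _
          (coe_ne (B'.χ_ne γ (hΓ γ hγ)))]
      rw [h2]
      exact (quo R).mul_mem (hBR _ h1.1) (hχR γ (hΓ γ hγ))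
    · rw [hF.y_eq]; exact hBR _ (hB.ext.le B.y_mem)
    · rw [hF.z_eq, hz]
      exact (quo R).add_mem (hBR ψ hψ) ((quo R).mul_mem (hχR a ha)
        ((quo R).add_mem ((quo R).algebraMap_mem c) hzR))
  let F' : RF2 k v := mkRF2 F hX B'.fg hΓ (y := (B'.y : Ω)) (coe_ne B'.y_ne) B'.y_pos hz0 hpos hg
  have hF' : IsRF2 F' B' z' := ⟨hr, rfl, fun γ _ => rfl, rfl, rfl⟩
  have hov := hF'.ov
  have hz'R : z' ∈ F'.R := F'.z_mem
  have hzden : z ∈ Den F.R F' := le_den (by rw [← hF.z_eq]; exact F.z_mem)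
  refine ⟨F', ?_, hF'⟩
  refine le_of_ble hF hov hB (fun γ hγ => hγ) (fun γ hγ => ?_) rfl ?_ (fun γ hγ _ => ?_) ?_
  · change F'.Un (((B'.χ γ : Ω₀) : Ω) / ((B'.χ γ : Ω₀) : Ω))
    rw [div_self (coe_ne (B'.χ_ne γ hγ))]
    exact RF2.Un.one
  · rw [hz]
    exact F'.R.add_mem (hov.mem ψ hψ) (F'.R.mul_mem (hov.mem _ (B'.χ_mem a ha ha0))
      (F'.R.add_mem (F'.R.algebraMap_mem c) hz'R))
  · exact coe_den_χ hF.ov hov hB.den hγ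
  · change z' ∈ Den F.R F'
    have h1 : z' = (z - (ψ : Ω)) * (((B'.χ a : Ω₀) : Ω))⁻¹ - algebraMap k Ω c := by
      rw [hz', div_eq_mul_inv]
    rw [h1]
    exact (Den F.R F').sub_mem ((Den F.R F').mul_mem
      ((Den F.R F').sub_mem hzden (coe_den hF.ov hov hB.den ψ hψ))
      (den_inv (coe_den_χ hF.ov hov hB.den ha) (hov.mono _ (BF.Mono.χ ha))))
      ((Den F.R F').algebraMap_mem c)

/-- The second parameter is transcendental over `Ω₀`. -/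
theorem Core.z_transc (hC : Core k v r Ω₀ z) {F : RF2 k v} {B : BF k (resv v Ω₀)}
    (hF : IsRF2 F B z) : Transcendental Ω₀ z := by
  intro halg
  have hE : Algebra.IsAlgebraic Ω₀ Ω := by
    constructor
    intro g
    set E := algebraicClosure Ω₀ Ω with hEdef
    have hR : Algebra.adjoin k (F.χ '' {γ | γ ∈ F.Γ} ∪ {F.y, F.z}) ≤
        (E.restrictScalars k).toSubalgebra := by
      refine Algebra.adjoin_le ?_
      rintro f (⟨γ, hγ, rfl⟩ | rfl | rfl)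
      · rw [hF.χ_eq γ (by rw [← hF.Γ_eq]; exact hγ)]
        exact E.algebraMap_mem (B.χ γ)
      · rw [hF.y_eq]; exact E.algebraMap_mem B.y
      · rw [hF.z_eq]
        exact mem_algebraicClosure_iff.2 halg
    have h1 : IsAlgebraic (E.restrictScalars k).toSubalgebra g := isAlgebraic_of_le hR (F.alg g)
    have h2 : IsAlgebraic E g := h1
    exact IsAlgebraic.restrictScalars Ω₀ h2
  have h1 := trdeg_add_eq k Ω₀ (A := Ω)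
  rw [trdeg_eq_zero (R := Ω₀) (A := Ω), add_zero, hC.c1.trdeg, hC.c2.trdeg] at h1
  have h2 : ((r + 1 : ℕ) : Cardinal.{u}) = ((r + 2 : ℕ) : Cardinal.{u}) := by exact_mod_cast h1
  rw [Nat.cast_inj] at h2
  omega

/-- The T-step in `t = z - ψ`. -/
theorem exists_zT (hC : Core k v r Ω₀ z) {F : RF2 k v} {B B' : BF k (resv v Ω₀)}
    (hF : IsRF2 F B z) (hB : BLe B B') (hr : BRat B') {ψ : Ω₀} (hψ : ψ ∈ B'.R) {t : Ω}
    (ht : t = z - (ψ : Ω)) {q : ℕ} {s : ℝ → ℤ → ℤ}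
    (hL : LatData B'.Γ (v t) q s) :
    ∃ (F' : RF2 k v) (c : k) (w : Ω), c ≠ 0 ∧ F.Le F' ∧ Ov F' B' ∧
      F'.Γ = B'.Γ ⊔ AddSubgroup.zmultiples (v t) ∧
      (∀ γ ∈ B'.Γ, ∀ l : ℤ,
        ((B'.χ γ : Ω₀) : Ω) * t ^ l = F'.χ (γ + l * v t) * w ^ (s γ l)) ∧
      F'.y = (B'.y : Ω) ∧ F'.z = w - algebraMap k Ω c ∧ F'.Un w := by
  have hβ : 0 < v t := hL.β_pos
  have ht0 : t ≠ 0 := by
    intro h0
    apply hC.z_not
    rw [ht, sub_eq_zero] at h0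
    rw [h0]; exact ψ.2
  have hX := coe_monD B'
  set X : ℝ → Ω := fun γ => ((B'.χ γ : Ω₀) : Ω) with hXdef
  set w : Ω := t ^ q / X (q * v t) with hwdef
  have hw : t ^ q = X (q * v t) * w := by
    rw [hwdef, mul_div_cancel₀ _ (hX.ne _ hL.q_mem)]
  have hw0 : w ≠ 0 := chi2_w_ne ht0 hw
  have hvw : v w = 0 := chi2_v_w hX ht0 hL hw
  obtain ⟨c, hc0, hc⟩ := hC.c2.res w hw0 hvw
  have hX' := chi2_monD hX ht0 hL hw
  set X' : ℝ → Ω := chi2 v B'.Γ X t w s with hX'def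
  have hmul : ∀ γ ∈ B'.Γ, ∀ l : ℤ, X γ * t ^ l = X' (γ + l * v t) * w ^ (s γ l) :=
    fun γ hγ l => chi2_mul hX ht0 hL hw hγ l
  have hz : z = (ψ : Ω) + t := by rw [ht]; ring
  -- `w` is not a constant
  have hne : w - algebraMap k Ω c ≠ 0 := by
    intro h0
    have h1 : t ^ q = X (q * v t) * algebraMap k Ω c := by
      rw [hw, sub_eq_zero.1 h0]
    have h2 := hC.z_transc hF
    apply h2
    refine ⟨(Polynomial.X - Polynomial.C ψ) ^ q -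
      Polynomial.C (B'.χ (q * v t) * algebraMap k Ω₀ c), ?_, ?_⟩
    · intro h3
      have h4 : ((Polynomial.X - Polynomial.C ψ) ^ q : Ω₀[X]).natDegree = q := by
        rw [Polynomial.natDegree_pow, Polynomial.natDegree_X_sub_C, mul_one]
      rw [sub_eq_zero.1 h3, Polynomial.natDegree_C] at h4
      exact hL.q_pos.ne h4
    · rw [map_sub, map_pow, map_sub, Polynomial.aeval_X, Polynomial.aeval_C,
        Polynomial.aeval_C, map_mul]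
      change (z - (ψ : Ω)) ^ q - X (q * v t) * algebraMap k Ω c = 0
      rw [← ht, h1, sub_self]
  have hpos : 0 < v (w - algebraMap k Ω c) := hc hne
  have hΓ : ∀ γ ∈ F.Γ, γ ∈ B'.Γ := fun γ hγ => hB.ext.Γ_le γ (by rw [← hF.Γ_eq]; exact hγ)
  have hΓ' : ∀ γ ∈ B'.Γ, γ ∈ B'.Γ ⊔ AddSubgroup.zmultiples (v t) := fun γ hγ =>
    AddSubgroup.mem_sup_left hγ
  have htΓ : v t ∈ B'.Γ ⊔ AddSubgroup.zmultiples (v t) :=
    AddSubgroup.mem_sup_right (AddSubgroup.mem_zmultiples _)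
  have hXw : ∀ γ ∈ B'.Γ, X γ = X' γ * w ^ (s γ 0) := fun γ hγ => by
    have h1 := hmul γ hγ 0
    rwa [zpow_zero, mul_one, Int.cast_zero, zero_mul, add_zero] at h1
  have htw : t = X' (v t) * w ^ (s 0 1) := by
    have h1 := hmul 0 B'.Γ.zero_mem 1
    rwa [zpow_one, Int.cast_one, one_mul, zero_add, hX.zero, one_mul] at h1
  set R := Algebra.adjoin k (X' '' {γ | γ ∈ B'.Γ ⊔ AddSubgroup.zmultiples (v t)} ∪
    {(B'.y : Ω), w - algebraMap k Ω c}) with hR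
  have hX'R : ∀ γ ∈ B'.Γ ⊔ AddSubgroup.zmultiples (v t), X' γ ∈ quo R := fun γ hγ =>
    le_quo (Algebra.subset_adjoin (Or.inl ⟨γ, hγ, rfl⟩))
  have hyR : (B'.y : Ω) ∈ quo R := le_quo (Algebra.subset_adjoin (Or.inr (Or.inl rfl)))
  have hwR : w ∈ quo R := by
    have h1 : w - algebraMap k Ω c ∈ quo R :=
      le_quo (Algebra.subset_adjoin (Or.inr (Or.inr rfl)))
    have h2 := (quo R).add_mem h1 ((quo R).algebraMap_mem c)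
    rwa [sub_add_cancel] at h2
  have hχR : ∀ γ ∈ B'.Γ, ((B'.χ γ : Ω₀) : Ω) ∈ quo R := fun γ hγ => by
    change X γ ∈ quo R
    rw [hXw γ hγ]
    exact (quo R).mul_mem (hX'R γ (hΓ' γ hγ)) (zpow_mem hwR _)
  have hBR := coe_quo_of_rat hr (quo R) hχR hyR
  have hg : ∀ f ∈ F.χ '' {γ | γ ∈ F.Γ} ∪ {F.y, F.z}, f ∈ quo R := by
    rintro f (⟨γ, hγ, rfl⟩ | rfl | rfl)
    · have hγ' : γ ∈ B.Γ := by rw [← hF.Γ_eq]; exact hγ
      have h1 := hB.ext.χ_un γ hγ'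
      have h2 : F.χ γ = ((B.χ γ / B'.χ γ : Ω₀) : Ω) * ((B'.χ γ : Ω₀) : Ω) := by
        rw [hF.χ_eq γ hγ', IntermediateField.coe_div, div_mul_cancel₀ _
          (coe_ne (B'.χ_ne γ (hΓ γ hγ)))]
      rw [h2]
      exact (quo R).mul_mem (hBR _ h1.1) (hχR γ (hΓ γ hγ))
    · rw [hF.y_eq]; exact hBR _ (hB.ext.le B.y_mem)
    · rw [hF.z_eq, hz]
      refine (quo R).add_mem (hBR ψ hψ) ?_
      rw [htw]
      exact (quo R).mul_mem (hX'R _ htΓ) (zpow_mem hwR _)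
  let F' : RF2 k v := mkRF2 F hX' (fg_sup _ B'.fg _) (fun γ hγ => hΓ' γ (hΓ γ hγ))
    (y := (B'.y : Ω)) (coe_ne B'.y_ne) B'.y_pos hne hpos hg
  have hwF : w ∈ F'.R := by
    have h1 : w - algebraMap k Ω c ∈ F'.R := F'.z_mem
    have h2 := F'.R.add_mem h1 (F'.R.algebraMap_mem c)
    rwa [sub_add_cancel] at h2
  have hwU : F'.Un w := ⟨hwF, hw0, hvw⟩
  have hχU : ∀ γ ∈ B'.Γ, F'.Un (((B'.χ γ : Ω₀) : Ω) / F'.χ γ) := fun γ hγ => by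
    change F'.Un (X γ / X' γ)
    rw [hXw γ hγ, mul_div_cancel_left₀ _ (hX'.ne γ (hΓ' γ hγ))]
    exact hwU.zpow _
  have hov : Ov F' B' := ov_of hr hΓ' hχU rfl
  have htM : F'.Mono t := by
    rw [htw]
    exact (RF2.Mono.χ (F := F') htΓ).mul (RF2.Mono.un (hwU.zpow _))
  have htD : t ∈ Den F.R F' := by
    rw [ht]
    exact (Den F.R F').sub_mem (le_den (by rw [← hF.z_eq]; exact F.z_mem))
      (coe_den hF.ov hov hB.den ψ hψ)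
  have hwD : w ∈ Den F.R F' := by
    rw [hwdef, div_eq_mul_inv]
    exact (Den F.R F').mul_mem ((Den F.R F').pow_mem htD q)
      (den_inv (coe_den_χ hF.ov hov hB.den hL.q_mem) (hov.mono _ (BF.Mono.χ hL.q_mem)))
  refine ⟨F', c, w, hc0, ?_, hov, rfl, hmul, rfl, rfl, hwU⟩
  refine le_of_ble hF hov hB hΓ' hχU rfl ?_ (fun γ' hγ' _ => ?_) ?_
  · rw [hz]
    exact F'.R.add_mem (hov.mem ψ hψ) (htM.mem hβ.le)
  · obtain ⟨γ, hγ, l, rfl⟩ := BF.mem_sup (show γ' ∈ B'.Γ ⊔ AddSubgroup.zmultiples (v t) from hγ')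
    have h1 : F'.χ (γ + l * v t) = X γ * t ^ l * w ^ (-(s γ l)) :=
      chi2_eq hX ht0 hL hw hγ l
    rw [h1]
    exact (Den F.R F').mul_mem ((Den F.R F').mul_mem (coe_den_χ hF.ov hov hB.den hγ)
      (den_zpow htD htM l)) (den_zpow hwD (RF2.Mono.un hwU) _)
  · exact (Den F.R F').sub_mem hwD ((Den F.R F').algebraMap_mem c)

end Over

end Pool.Agent.LU3
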