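import Pool.Agent.Lib.LU3.Rows

/-!
# LU3: extraction of the polynomial `A` (row R2b)
-/

set_option autoImplicit false

open Polynomial

namespace Pool.Agent.LU3

open Pool.Agent.H15JM (RVal)
open Pool.Agent.LU1

universe u

namespace R2b

variable {k Ω : Type u} [Field k] [Field Ω] [Algebra k Ω] {v : RVal Ω} {r : ℕ}

theorem χ_zero (F : RF2 k v) : F.χ 0 = 1 := by
  have h1 := F.χ_add 0 F.Γ.zero_mem 0 F.Γ.zero_mem
  rw [add_zero] at h1
  exact (mul_right_cancel₀ (F.χ_ne 0 F.Γ.zero_mem) (by rw [one_mul]; exact h1)).symm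

theorem χ_neg (F : RF2 k v) {γ : ℝ} (hγ : γ ∈ F.Γ) : F.χ (-γ) = (F.χ γ)⁻¹ := by
  have h1 := F.χ_add γ hγ (-γ) (F.Γ.neg_mem hγ)
  rw [add_neg_cancel, χ_zero] at h1
  exact eq_inv_of_mul_eq_one_right h1.symm

theorem χ_nsmul (F : RF2 k v) {γ : ℝ} (hγ : γ ∈ F.Γ) (n : ℕ) :
    (n : ℝ) * γ ∈ F.Γ ∧ F.χ (n * γ) = F.χ γ ^ n := by
  induction n with
  | zero => simp [χ_zero, F.Γ.zero_mem]
  | succ n ih =>
    have h1 : ((n + 1 : ℕ) : ℝ) * γ = n * γ + γ := by push_cast; ring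
    rw [h1, F.χ_add _ ih.1 _ hγ, ih.2, pow_succ]
    exact ⟨F.Γ.add_mem ih.1 hγ, rfl⟩

theorem χ_zsmul (F : RF2 k v) {γ : ℝ} (hγ : γ ∈ F.Γ) (n : ℤ) :
    (n : ℝ) * γ ∈ F.Γ ∧ F.χ (n * γ) = F.χ γ ^ n := by
  cases n with
  | ofNat n => simpa using χ_nsmul F hγ n
  | negSucc n =>
    have h2 := χ_nsmul F hγ (n + 1)
    have h1 : ((Int.negSucc n : ℤ) : ℝ) * γ = -(((n + 1 : ℕ) : ℝ) * γ) := by
      push_cast; ring
    rw [h1, χ_neg F h2.1, h2.2, zpow_negSucc]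
    exact ⟨F.Γ.neg_mem h2.1, rfl⟩

theorem χ_sum (F : RF2 k v) (g : Fin r → ℝ) (hg : ∀ i, g i ∈ F.Γ) (n : Fin r → ℤ)
    (s : Finset (Fin r)) :
    (∑ i ∈ s, (n i : ℝ) * g i) ∈ F.Γ ∧
      F.χ (∑ i ∈ s, (n i : ℝ) * g i) = ∏ i ∈ s, F.χ (g i) ^ n i := by
  classical
  induction s using Finset.induction_on with
  | empty => simp [χ_zero, F.Γ.zero_mem]
  | insert a s ha ih =>
    rw [Finset.sum_insert ha, Finset.prod_insert ha]
    obtain ⟨h1, h2⟩ := χ_zsmul F (hg a) (n a)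
    rw [F.χ_add _ h1 _ ih.1, h2, ih.2]
    exact ⟨F.Γ.add_mem h1 ih.1, rfl⟩

/-- Independent exponents. -/
theorem exists_coord (h : Ctx2 k v r) (F : RF2 k v) :
    ∃ g : Fin r → ℝ, (∀ i, g i ∈ F.Γ) ∧ LinearIndependent ℚ g ∧
      (∀ a : Ω, a ≠ 0 → v a ∈ Submodule.span ℚ (Set.range g)) ∧
      ∀ γ ∈ F.Γ, ∃ N : ℕ, 0 < N ∧ ∃ n : Fin r → ℤ, (N : ℝ) * γ = ∑ i, (n i : ℝ) * g i := by
  classical
  obtain ⟨X, hX0, hXi, hX⟩ := h.rank
  choose m hm hmX using fun i => F.full (X i) (hX0 i)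
  have hm0 : ∀ i, (m i : ℚ) ≠ 0 := fun i => by exact_mod_cast (hm i).ne'
  have hli : LinearIndependent ℚ fun i => (m i : ℝ) * v (X i) := by
    have h2 := hXi.units_smul fun i => Units.mk0 (m i : ℚ) (hm0 i)
    convert h2 using 1
    funext i
    change (m i : ℝ) * v (X i) = (m i : ℚ) • v (X i)
    rw [Rat.smul_def]
    push_cast
    rfl
  have hspan : ∀ a : Ω, a ≠ 0 → v a ∈ Submodule.span ℚ (Set.range fun i => (m i : ℝ) * v (X i)) := by
    intro a ha
    refine (Submodule.span_le.2 ?_) (hX a ha)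
    rintro _ ⟨i, rfl⟩
    have h2 : v (X i) = ((m i : ℚ)⁻¹) • ((m i : ℝ) * v (X i)) := by
      rw [Rat.smul_def]
      push_cast
      rw [← mul_assoc, inv_mul_cancel₀, one_mul]
      exact_mod_cast (hm i).ne'
    change v (X i) ∈ Submodule.span ℚ (Set.range fun i => (m i : ℝ) * v (X i))
    rw [h2]
    exact Submodule.smul_mem _ _ (Submodule.subset_span ⟨i, rfl⟩)
  refine ⟨fun i => (m i : ℝ) * v (X i), hmX, hli, hspan, fun γ hγ => ?_⟩
  have hmem := hspan (F.χ γ) (F.χ_ne γ hγ)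
  rw [F.χ_val γ hγ] at hmem
  obtain ⟨c, hc⟩ := (Submodule.mem_span_range_iff_exists_fun ℚ).1 hmem
  refine ⟨∏ i, (c i).den, Finset.prod_pos fun i _ => (c i).pos,
    fun i => (c i).num * ∏ j ∈ Finset.univ.erase i, ((c j).den : ℤ), ?_⟩
  rw [← hc, Finset.mul_sum]
  refine Finset.sum_congr rfl fun i _ => ?_
  rw [Rat.smul_def, ← Finset.mul_prod_erase _ _ (Finset.mem_univ i), ← mul_assoc]
  congr 1
  have h1 : ((c i).num : ℝ) = (c i : ℝ) * (c i).den := by
    exact_mod_cast (Rat.mul_den_eq_num (c i)).symm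
  push_cast
  rw [h1]
  ring

/-- The generators of the small field. -/
def gens (F : RF2 k v) (g : Fin r → ℝ) : Set Ω := Set.range (fun i => F.χ (g i)) ∪ {F.y}

/-- The small algebraically closed field. -/
noncomputable def big (F : RF2 k v) (g : Fin r → ℝ) : IntermediateField k Ω :=
  (algebraicClosure (IntermediateField.adjoin k (gens F g)) Ω).restrictScalars k

theorem mem_big {F : RF2 k v} {g : Fin r → ℝ} {a : Ω} :
    a ∈ big F g ↔ IsAlgebraic (IntermediateField.adjoin k (gens F g)) a := by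
  rw [big, IntermediateField.mem_restrictScalars, mem_algebraicClosure_iff]

theorem adjoin_le_big (F : RF2 k v) (g : Fin r → ℝ) :
    IntermediateField.adjoin k (gens F g) ≤ big F g := by
  intro a ha
  rw [mem_big]
  exact isAlgebraic_algebraMap (⟨a, ha⟩ : IntermediateField.adjoin k (gens F g))

theorem χ_mem_big (F : RF2 k v) {g : Fin r → ℝ} (hg : ∀ i, g i ∈ F.Γ)
    (hgen : ∀ γ ∈ F.Γ, ∃ N : ℕ, 0 < N ∧ ∃ n : Fin r → ℤ, (N : ℝ) * γ = ∑ i, (n i : ℝ) * g i)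
    {γ : ℝ} (hγ : γ ∈ F.Γ) : F.χ γ ∈ big F g := by
  obtain ⟨N, hN, n, hn⟩ := hgen γ hγ
  rw [mem_big]
  refine IsAlgebraic.of_pow hN ?_
  rw [← (χ_nsmul F hγ N).2, hn, (χ_sum F g hg n Finset.univ).2, ← mem_big]
  refine prod_mem fun i _ => zpow_mem (adjoin_le_big F g ?_) _
  exact IntermediateField.subset_adjoin _ _ (Or.inl ⟨i, rfl⟩)

theorem y_mem_big (F : RF2 k v) (g : Fin r → ℝ) : F.y ∈ big F g :=
  adjoin_le_big F g (IntermediateField.subset_adjoin _ _ (Or.inr rfl))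

theorem isAlgClosed_big [IsAlgClosed Ω] (F : RF2 k v) (g : Fin r → ℝ) :
    IsAlgClosed (big F g) := by
  have h : IsAlgClosed (algebraicClosure (IntermediateField.adjoin k (gens F g)) Ω) :=
    IsAlgClosure.isAlgClosed (IntermediateField.adjoin k (gens F g))
  exact h

/-- Everything is algebraic over `big(z)`. -/
theorem alg_big (F : RF2 k v) {g : Fin r → ℝ} (hg : ∀ i, g i ∈ F.Γ)
    (hgen : ∀ γ ∈ F.Γ, ∃ N : ℕ, 0 < N ∧ ∃ n : Fin r → ℤ, (N : ℝ) * γ = ∑ i, (n i : ℝ) * g i)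
    (E : IntermediateField k Ω) (hE : big F g ≤ E) (hz : F.z ∈ E) (a : Ω) : IsAlgebraic E a := by
  have h1 : Algebra.adjoin k (F.χ '' {γ | γ ∈ F.Γ} ∪ {F.y, F.z}) ≤ E.toSubalgebra := by
    rw [Algebra.adjoin_le_iff]
    rintro x (⟨γ, hγ, rfl⟩ | rfl | rfl)
    · exact hE (χ_mem_big F hg hgen hγ)
    · exact hE (y_mem_big F g)
    · exact hz
  exact IsAlgebraic.tower_top_of_subalgebra_le h1 (F.alg a)

theorem z_not_big (h : Ctx2 k v r) (F : RF2 k v) {g : Fin r → ℝ} (hg : ∀ i, g i ∈ F.Γ)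
    (hgen : ∀ γ ∈ F.Γ, ∃ N : ℕ, 0 < N ∧ ∃ n : Fin r → ℤ, (N : ℝ) * γ = ∑ i, (n i : ℝ) * g i) :
    F.z ∉ big F g := by
  intro hz
  have h1 : ∀ a : Ω, IsAlgebraic (big F g) a := alg_big F hg hgen _ le_rfl hz
  have h2 : Algebra.IsAlgebraic (IntermediateField.adjoin k (gens F g)) Ω := by
    refine ⟨fun a => ?_⟩
    have h3 : IsAlgebraic (algebraicClosure (IntermediateField.adjoin k (gens F g)) Ω) a := h1 a
    exact h3.restrictScalars (IntermediateField.adjoin k (gens F g))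
  have h3 := trdeg_le_of_isAlgebraic (k := k) (gens F g) h2
  rw [h.trdeg] at h3
  have h4 : Cardinal.mk (gens F g) ≤ (r : Cardinal) + 1 := by
    refine (Cardinal.mk_union_le _ _).trans (add_le_add ?_ ?_)
    · have h5 := Cardinal.mk_range_le_lift (f := fun i => F.χ (g i))
      simpa using h5
    · simp
  have h5 := h3.trans h4
  have h6 : ((r + 2 : ℕ) : Cardinal) ≤ ((r + 1 : ℕ) : Cardinal) := by
    push_cast
    exact h5
  rw [Nat.cast_le] at h6
  omega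

theorem trdeg_big (h : Ctx2 k v r) (F : RF2 k v) {g : Fin r → ℝ} (hg : ∀ i, g i ∈ F.Γ)
    (hgen : ∀ γ ∈ F.Γ, ∃ N : ℕ, 0 < N ∧ ∃ n : Fin r → ℤ, (N : ℝ) * γ = ∑ i, (n i : ℝ) * g i) :
    Algebra.trdeg k (big F g) = r + 1 := by
  have hz := z_not_big h F hg hgen
  have h1 := trdeg_add_eq k (big F g) (A := Ω)
  rw [h.trdeg] at h1
  -- `Ω` is algebraic over `big(z)`
  have h2 : Algebra.IsAlgebraic (IntermediateField.adjoin (big F g) {F.z}) Ω := by
    refine ⟨fun a => ?_⟩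
    have h3 := alg_big F hg hgen
      ((IntermediateField.adjoin (big F g) {F.z}).restrictScalars k) (fun b hb => by
        rw [IntermediateField.mem_restrictScalars]
        exact (IntermediateField.adjoin (big F g) {F.z}).algebraMap_mem (⟨b, hb⟩ : big F g))
      (by
        rw [IntermediateField.mem_restrictScalars]
        exact IntermediateField.mem_adjoin_simple_self _ _) a
    exact h3
  have h3 : Algebra.trdeg (big F g) Ω ≤ 1 := by
    have h4 := trdeg_le_of_isAlgebraic (k := big F g) ({F.z} : Set Ω) h2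
    simpa using h4
  have h4 : Algebra.trdeg (big F g) Ω ≠ 0 := by
    intro h5
    have h6 : Algebra.IsAlgebraic (big F g) Ω := by
      exact trdeg_eq_zero_iff.1 h5
    apply hz
    rw [mem_big]
    have h7 : IsAlgebraic (algebraicClosure (IntermediateField.adjoin k (gens F g)) Ω) F.z :=
      h6.isAlgebraic F.z
    exact h7.restrictScalars (IntermediateField.adjoin k (gens F g))
  have h5 : Algebra.trdeg (big F g) Ω = 1 :=
    le_antisymm h3 (Cardinal.one_le_iff_ne_zero.2 h4)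
  rw [h5] at h1
  have h6 : Algebra.trdeg k (big F g) + 1 = ((r : Cardinal) + 1) + 1 := by
    rw [h1, add_assoc, one_add_one_eq_two]
  have h7 : Algebra.trdeg k (big F g) < Cardinal.aleph0 := by
    refine lt_of_le_of_lt (self_le_add_right _ (1 : Cardinal)) ?_
    rw [h6]
    exact_mod_cast Cardinal.natCast_lt_aleph0 (n := r + 1 + 1)
  obtain ⟨n, hn⟩ := Cardinal.lt_aleph0.1 h7
  rw [hn] at h6 ⊢
  have h8 : n + 1 = (r + 1) + 1 := by exact_mod_cast h6
  have h9 : n = r + 1 := by omega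
  rw [h9]
  push_cast
  rfl

/-- The context of the small field. -/
theorem ctx_big (h : Ctx2 k v r) (F : RF2 k v) {g : Fin r → ℝ} (hg : ∀ i, g i ∈ F.Γ)
    (hli : LinearIndependent ℚ g)
    (hspan : ∀ a : Ω, a ≠ 0 → v a ∈ Submodule.span ℚ (Set.range g))
    (hgen : ∀ γ ∈ F.Γ, ∃ N : ℕ, 0 < N ∧ ∃ n : Fin r → ℤ, (N : ℝ) * γ = ∑ i, (n i : ℝ) * g i) :
    Ctx k (resv v (big F g)) r where
  triv c hc := h.triv c hc
  res a ha hv := by
    have ha' : (a : Ω) ≠ 0 := fun h0 => ha (Subtype.ext h0)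
    obtain ⟨c, hc, hp⟩ := h.res (a : Ω) ha' hv
    refine ⟨c, hc, fun h0 => ?_⟩
    exact hp fun h1 => h0 (Subtype.ext h1)
  rpos := h.rpos
  trdeg := trdeg_big h F hg hgen
  rank := by
    refine ⟨fun i => ⟨F.χ (g i), χ_mem_big F hg hgen (hg i)⟩, fun i h0 => ?_, ?_, fun a ha => ?_⟩
    · exact F.χ_ne _ (hg i) (congrArg Subtype.val h0)
    · have h1 : (fun i => resv v (big F g) ⟨F.χ (g i), χ_mem_big F hg hgen (hg i)⟩) = g := by
        funext i
        exact F.χ_val _ (hg i)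
      rw [h1]
      exact hli
    · have h1 : (fun i => resv v (big F g) ⟨F.χ (g i), χ_mem_big F hg hgen (hg i)⟩) = g := by
        funext i
        exact F.χ_val _ (hg i)
      rw [h1]
      exact hspan (a : Ω) fun h0 => ha (Subtype.ext h0)

/-- Transfer of algebraicity to an intermediate field. -/
theorem alg_transfer (E : IntermediateField k Ω) (S : Set E) (G : Set Ω)
    (hG : ∀ x ∈ G, ∃ s ∈ IntermediateField.adjoin k S, (s : Ω) = x) (a : E)
    (h : IsAlgebraic (IntermediateField.adjoin k G) (a : Ω)) :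
    IsAlgebraic (IntermediateField.adjoin k S) a := by
  have hle : IntermediateField.adjoin k G ≤ (IntermediateField.adjoin k S).map E.val := by
    rw [IntermediateField.adjoin_le_iff]
    intro x hx
    obtain ⟨s, hs, rfl⟩ := hG x hx
    exact ⟨s, hs, rfl⟩
  have hex : ∀ e : IntermediateField.adjoin k G, ∃ s : IntermediateField.adjoin k S,
      ((s : E) : Ω) = (e : Ω) := by
    intro e
    obtain ⟨s, hs, hse⟩ := hle e.2
    exact ⟨⟨s, hs⟩, hse⟩
  choose φ hφ using hex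
  have hinj : ∀ s t : IntermediateField.adjoin k S, ((s : E) : Ω) = ((t : E) : Ω) → s = t :=
    fun s t hst => Subtype.ext (Subtype.ext hst)
  let Φ : IntermediateField.adjoin k G →+* IntermediateField.adjoin k S :=
    { toFun := φ
      map_one' := hinj _ _ (by rw [hφ]; rfl)
      map_mul' := fun x y => hinj _ _ (by
        have h1 : (((φ x * φ y : IntermediateField.adjoin k S) : E) : Ω) =
          ((φ x : E) : Ω) * ((φ y : E) : Ω) := rfl
        rw [h1, hφ, hφ, hφ]; rfl)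
      map_zero' := hinj _ _ (by rw [hφ]; rfl)
      map_add' := fun x y => hinj _ _ (by
        have h1 : (((φ x + φ y : IntermediateField.adjoin k S) : E) : Ω) =
          ((φ x : E) : Ω) + ((φ y : E) : Ω) := rfl
        rw [h1, hφ, hφ, hφ]; rfl) }
  obtain ⟨P, hP, h0⟩ := h
  refine ⟨P.map Φ, ?_, ?_⟩
  · rwa [Ne, Polynomial.map_eq_zero]
  · apply Subtype.ext
    have h1 : ((Polynomial.aeval a (P.map Φ) : E) : Ω) =
        Polynomial.eval₂ (((algebraMap E Ω).comp (algebraMap (IntermediateField.adjoin k S) E)).comp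
          Φ) (a : Ω) P := by
      rw [Polynomial.aeval_def, Polynomial.eval₂_map]
      exact Polynomial.hom_eval₂ _ _ (algebraMap E Ω) _
    have h2 : ((algebraMap E Ω).comp (algebraMap (IntermediateField.adjoin k S) E)).comp Φ =
        algebraMap (IntermediateField.adjoin k G) Ω := by
      ext x
      exact hφ x
    rw [h1, h2]
    exact h0

/-- The frame of the small field. -/
theorem exists_B (h : Ctx2 k v r) (F : RF2 k v) {g : Fin r → ℝ} (hg : ∀ i, g i ∈ F.Γ)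
    (hli : LinearIndependent ℚ g)
    (hspan : ∀ a : Ω, a ≠ 0 → v a ∈ Submodule.span ℚ (Set.range g))
    (hgen : ∀ γ ∈ F.Γ, ∃ N : ℕ, 0 < N ∧ ∃ n : Fin r → ℤ, (N : ℝ) * γ = ∑ i, (n i : ℝ) * g i) :
    ∃ B : BF k (resv v (big F g)), IsRF2 F B F.z := by
  classical
  have hctx := ctx_big h F hg hli hspan hgen
  obtain ⟨χ', hχ'⟩ : ∃ χ' : ℝ → big F g, ∀ γ ∈ F.Γ, (χ' γ : Ω) = F.χ γ := by
    refine ⟨fun γ => if hγ : γ ∈ F.Γ then ⟨F.χ γ, χ_mem_big F hg hgen hγ⟩ else 1, ?_⟩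
    intro γ hγ
    simp only [dif_pos hγ]
  obtain ⟨y', hy'⟩ : ∃ y' : big F g, (y' : Ω) = F.y := ⟨⟨F.y, y_mem_big F g⟩, rfl⟩
  have hy0 : y' ≠ 0 := by
    rintro rfl
    exact F.y_ne hy'.symm
  have hypos : 0 < resv v (big F g) y' := by
    rw [resv_apply, hy']
    exact F.y_pos
  have hχ0 : ∀ γ ∈ F.Γ, χ' γ ≠ 0 := by
    intro γ hγ h0
    apply F.χ_ne γ hγ
    rw [← hχ' γ hγ, h0]
    rfl
  obtain ⟨B, hΓ, hχ, hy, hR⟩ := exists_BF_of hctx F.Γ F.fg
    (fun a ha => F.full (a : Ω) fun h0 => ha (Subtype.ext h0)) χ' hχ0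
    (fun γ hγ δ hδ => by
      apply Subtype.ext
      have h1 : ((χ' γ * χ' δ : big F g) : Ω) = (χ' γ : Ω) * (χ' δ : Ω) := rfl
      rw [h1, hχ' _ (F.Γ.add_mem hγ hδ), hχ' _ hγ, hχ' _ hδ, F.χ_add γ hγ δ hδ])
    (fun γ hγ => by rw [resv_apply, hχ' γ hγ, F.χ_val γ hγ]) y' hy0 hypos {y'}
    (fun f hf => by
      rw [Finset.mem_singleton.1 hf]
      exact fun _ => hypos.le)
    (le_locv _ (Algebra.subset_adjoin (Or.inl (by simp))))
    (fun f hf => by
      rw [Finset.mem_singleton.1 hf]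
      obtain ⟨γ, hγ, hγ0⟩ := exists_pos_of_full hctx F.Γ
        (fun a ha => F.full (a : Ω) fun h0 => ha (Subtype.ext h0))
      refine ⟨0, γ, hγ, hγ0, 0, Subalgebra.zero_mem _, 1, Subalgebra.one_mem _, ?_⟩
      rw [map_zero]
      ring)
    (fun a => by
      refine IsAlgebraic.tower_top_of_subalgebra_le (le_locv _) (BaseG0.alg_down _ a ?_)
      refine alg_transfer _ _ (gens F g) ?_ a (mem_big.1 a.2)
      rintro x (⟨i, rfl⟩ | hx)
      · rcases le_total 0 (g i) with h0 | h0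
        · exact ⟨χ' (g i), IntermediateField.subset_adjoin _ _
            (Or.inr ⟨g i, ⟨hg i, h0⟩, rfl⟩), hχ' _ (hg i)⟩
        · refine ⟨(χ' (-g i))⁻¹, inv_mem (IntermediateField.subset_adjoin _ _
            (Or.inr ⟨-g i, ⟨F.Γ.neg_mem (hg i), neg_nonneg.2 h0⟩, rfl⟩)), ?_⟩
          have h1 : (((χ' (-g i))⁻¹ : big F g) : Ω) = ((χ' (-g i) : big F g) : Ω)⁻¹ := rfl
          rw [h1, hχ' _ (F.Γ.neg_mem (hg i)), χ_neg F (hg i), inv_inv]
      · rw [Set.mem_singleton_iff.1 hx]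
        exact ⟨y', IntermediateField.subset_adjoin _ _ (Or.inl (by simp)), hy'⟩)
  refine ⟨B, ?_, hΓ.symm, fun γ hγ => ?_, ?_, rfl⟩
  · rw [BRat, hR, hΓ, hχ, hy, Finset.coe_singleton, Set.union_comm]
  · rw [hχ, hχ' γ (by rw [← hΓ]; exact hγ)]
  · rw [hy, hy']

variable {Ω₀ : IntermediateField k Ω}

/-- Polynomials in `z` over `B.R`. -/
theorem exists_poly {F : RF2 k v} {B : BF k (resv v Ω₀)} (hF : IsRF2 F B F.z) {p : Ω}
    (hp : p ∈ F.P) : ∃ A : Ω₀[X], (∀ j, A.coeff j ∈ B.R) ∧ aeval F.z A = p := by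
  unfold RF2.P at hp
  induction hp using Algebra.adjoin_induction with
  | mem x hx =>
    rcases hx with ⟨γ, ⟨hγ, h0⟩, rfl⟩ | hx | hx
    · have hγ' : γ ∈ B.Γ := by rw [← hF.Γ_eq]; exact hγ
      refine ⟨C (B.χ γ), fun j => ?_, ?_⟩
      · rw [coeff_C]
        split
        · exact B.χ_mem γ hγ' h0
        · exact B.R.zero_mem
      · rw [aeval_C, hF.χ_eq γ hγ']
        rfl
    · rw [hx]
      refine ⟨C B.y, fun j => ?_, ?_⟩
      · rw [coeff_C]
        split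
        · exact B.y_mem
        · exact B.R.zero_mem
      · rw [aeval_C, hF.y_eq]
        rfl
    · rw [Set.mem_singleton_iff.1 hx]
      refine ⟨X, fun j => ?_, aeval_X _⟩
      rw [coeff_X]
      split
      · exact B.R.one_mem
      · exact B.R.zero_mem
  | algebraMap c =>
    refine ⟨C (algebraMap k Ω₀ c), fun j => ?_, ?_⟩
    · rw [coeff_C]
      split
      · exact B.R.algebraMap_mem c
      · exact B.R.zero_mem
    · rw [aeval_C]
      rfl
  | add x y _ _ hx hy =>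
    obtain ⟨A, hA, rfl⟩ := hx
    obtain ⟨A', hA', rfl⟩ := hy
    exact ⟨A + A', fun j => by rw [coeff_add]; exact B.R.add_mem (hA j) (hA' j), by rw [map_add]⟩
  | mul x y _ _ hx hy =>
    obtain ⟨A, hA, rfl⟩ := hx
    obtain ⟨A', hA', rfl⟩ := hy
    refine ⟨A * A', fun j => ?_, by rw [map_mul]⟩
    rw [coeff_mul]
    exact B.R.sum_mem fun i _ => B.R.mul_mem (hA _) (hA' _)

/-- Values of polynomials over `B.R`. -/
theorem aeval_ge {B : BF k (resv v Ω₀)} {z : Ω} (hz : 0 < v z) {A : Ω₀[X]}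
    (hA : ∀ j, A.coeff j ∈ B.R) : v.Ge 0 (aeval z A) := by
  rw [aeval_def, eval₂_eq_sum_range]
  refine RVal.Ge.sum _ _ fun i _ => ?_
  have h1 : v.Ge 0 (algebraMap Ω₀ Ω (A.coeff i)) := by
    intro h0
    exact B.nonneg _ (hA i) fun h1 => h0 (by rw [h1, map_zero])
  have h2 : v.Ge 0 (z ^ i) := by
    intro h0
    by_cases hz0 : z = 0
    · by_cases hi : i = 0
      · rw [hi, pow_zero, v.map_one]
      · rw [hz0, zero_pow hi] at h0
        exact absurd rfl h0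
    · rw [v.map_pow hz0]
      positivity
  simpa using h1.mul h2

theorem divX_mem {B : BF k (resv v Ω₀)} {A : Ω₀[X]} (hA : ∀ j, A.coeff j ∈ B.R) :
    ∀ j, A.divX.coeff j ∈ B.R := by
  intro j
  rw [coeff_divX]
  exact hA _

/-- The constant coefficient of a polynomial whose value at `z` is a unit. -/
theorem coeff_zero_un {B : BF k (resv v Ω₀)} {z : Ω} (hz : 0 < v z) {A : Ω₀[X]}
    (hA : ∀ j, A.coeff j ∈ B.R) (h0 : aeval z A ≠ 0) (h1 : v (aeval z A) = 0) :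
    B.Un (A.coeff 0) := by
  have h2 : aeval z A = z * aeval z A.divX + (A.coeff 0 : Ω) := by
    conv_lhs => rw [← divX_mul_X_add A]
    rw [map_add, map_mul, aeval_X, aeval_C, mul_comm]
    rfl
  have h3 : VPos v (-(z * aeval z A.divX)) :=
    ((VPos.mul (fun _ => hz) (aeval_ge hz (divX_mem hA)))).neg
  have h4 := val_add_vpos h0 h1 h3
  have h5 : aeval z A + -(z * aeval z A.divX) = (A.coeff 0 : Ω) := by
    rw [h2]
    ring
  rw [h5] at h4
  exact ⟨hA 0, fun h6 => h4.1 (by rw [h6]; rfl), h4.2⟩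

end R2b

open R2b in
/-- R2b: extraction of the polynomial. -/
theorem row2b (k Ω : Type u) [Field k] [Field Ω] [Algebra k Ω] (v : RVal Ω) (r : ℕ) :
    Row2b k Ω v r := by
  intro hcl h F f κ m hf
  obtain ⟨g, hg, hli, hspan, hgen⟩ := exists_coord h F
  obtain ⟨B, hB⟩ := exists_B h F hg hli hspan hgen
  obtain ⟨hκ, u, hu, b, hb, δ, hδ, hδ0, a, ha, rfl⟩ := hf
  have hδB : δ ∈ B.Γ := by rw [← hB.Γ_eq]; exact hδ
  obtain ⟨u₁, hu₁, q₁, hq₁, hq₁0, hvq₁, rfl⟩ := hu.1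
  obtain ⟨b₁, hb₁, q₂, hq₂, hq₂0, hvq₂, rfl⟩ := hb
  obtain ⟨a₁, ha₁, q₃, hq₃, hq₃0, hvq₃, rfl⟩ := ha
  have hu₁0 : u₁ ≠ 0 := by
    rintro rfl
    exact hu.2.1 (zero_div _)
  have hvu₁ : v u₁ = 0 := by
    have h1 := hu.2.2
    rwa [v.map_div hu₁0 hq₁0, hvq₁, sub_zero] at h1
  obtain ⟨U, hU, hUe⟩ := exists_poly hB (F.P.mul_mem hu₁ (F.P.mul_mem hq₂ hq₃))
  obtain ⟨V, hV, hVe⟩ := exists_poly hB (F.P.mul_mem hb₁ (F.P.mul_mem hq₁ hq₃))
  obtain ⟨W, hW, hWe⟩ := exists_poly hB (F.P.mul_mem ha₁ (F.P.mul_mem hq₁ hq₂))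
  have hU0 : B.Un (U.coeff 0) := by
    refine coeff_zero_un F.z_pos hU ?_ ?_
    · rw [hUe]
      exact mul_ne_zero hu₁0 (mul_ne_zero hq₂0 hq₃0)
    · rw [hUe, v.map_mul hu₁0 (mul_ne_zero hq₂0 hq₃0), v.map_mul hq₂0 hq₃0, hvu₁, hvq₂, hvq₃]
      ring
  have hy : VPos (resv v (big F g)) B.y := fun _ => B.y_pos
  have hrest : ∀ j, B.y * V.coeff j + B.χ δ * W.coeff j ∈ B.R ∧
      VPos (resv v (big F g)) (B.y * V.coeff j + B.χ δ * W.coeff j) := fun j =>
    ⟨B.R.add_mem (B.R.mul_mem B.y_mem (hV j)) (B.R.mul_mem (B.χ_mem δ hδB hδ0.le) (hW j)),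
      (hy.mul (B.nonneg _ (hV j))).add ((B.vpos_χ hδB hδ0).mul (B.nonneg _ (hW j)))⟩
  have hco : ∀ j, (U * X ^ m + C B.y * V + C (B.χ δ) * W).coeff j =
      (if m ≤ j then U.coeff (j - m) else 0) + (B.y * V.coeff j + B.χ δ * W.coeff j) := by
    intro j
    rw [coeff_add, coeff_add, coeff_C_mul, coeff_C_mul, coeff_mul_X_pow', add_assoc]
  refine ⟨big F g, B, quo B.R, U * X ^ m + C B.y * V + C (B.χ δ) * W, q₁ * (q₂ * q₃),
    isAlgClosed_big F g, ⟨h, ctx_big h F hg hli hspan hgen, F.z_pos, z_not_big h F hg hgen⟩,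
    fracIs_iff.2 ⟨fun f hf => le_quo hf, le_rfl⟩, hB, ⟨fun j => ?_, fun j hj => ?_, ?_⟩, ?_, ?_⟩
  · rw [hco]
    refine B.R.add_mem ?_ (hrest j).1
    split
    · exact hU _
    · exact B.R.zero_mem
  · rw [hco, if_neg (by omega), zero_add]
    exact (hrest j).2
  · rw [hco, if_pos le_rfl, Nat.sub_self]
    exact hU0.add_vpos (hrest m).1 (hrest m).2
  · exact ⟨le_locv _ (F.P.mul_mem hq₁ (F.P.mul_mem hq₂ hq₃)),
      mul_ne_zero hq₁0 (mul_ne_zero hq₂0 hq₃0), by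
        rw [v.map_mul hq₁0 (mul_ne_zero hq₂0 hq₃0), v.map_mul hq₂0 hq₃0, hvq₁, hvq₂, hvq₃]
        ring⟩
  · have e1 : aeval F.z (C B.y) = F.y := by
      rw [aeval_C, hB.y_eq]
      rfl
    have e2 : aeval F.z (C (B.χ δ)) = F.χ δ := by
      rw [aeval_C, hB.χ_eq δ hδB]
      rfl
    rw [map_add, map_add, map_mul, map_mul, map_mul, map_pow, aeval_X, hUe, hVe, hWe, e1, e2]
    field_simp

end Pool.Agent.LU3
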