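import Pool.Agent.Lib.LU3.Defs

/-!
# LU3 (DefectTwo): the statements of the core rows (definitions only)
-/

set_option autoImplicit false

open Polynomial

namespace Pool.Agent.LU3

open Pool.Agent.H15JM (RVal)
open Pool.Agent.LU1

universe u

section Defs

variable {k Ω : Type u} [Field k] [Field Ω] [Algebra k Ω]

/-- The value group of a subfield. -/
noncomputable def vgp (v : RVal Ω) (L : IntermediateField k Ω) : AddSubgroup ℝ where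
  carrier := {γ | ∃ g ∈ L, g ≠ 0 ∧ v g = γ}
  zero_mem' := ⟨1, L.one_mem, one_ne_zero, v.map_one⟩
  add_mem' := by
    rintro _ _ ⟨g, hg, hg0, rfl⟩ ⟨h, hh, hh0, rfl⟩
    exact ⟨g * h, L.mul_mem hg hh, mul_ne_zero hg0 hh0, v.map_mul hg0 hh0⟩
  neg_mem' := by
    rintro _ ⟨g, hg, hg0, rfl⟩
    exact ⟨g⁻¹, L.inv_mem hg, inv_ne_zero hg0, v.map_inv hg0⟩

variable {v : RVal Ω}

/-- `f` has content at least `c` in `B`. -/
def CGe (B : BF k v) (c : ℝ) (f : Ω) : Prop :=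
  ∃ δ ∈ B.Γ, c ≤ δ ∧ ∃ a ∈ B.R, f = B.χ δ * a

/-- `f` has positive content in `B`. -/
def CPos (B : BF k v) (f : Ω) : Prop :=
  ∃ δ ∈ B.Γ, 0 < δ ∧ ∃ a ∈ B.R, f = B.χ δ * a

/-- A pair of frames `(S, C)` of `L₀ ≤ N` (2.2). -/
structure IsPair (L₀ N : IntermediateField k Ω) (S C : BF k v) (e : ℕ) : Prop where
  rat : BRat S
  fracS : FracIs S.R L₀
  fracC : FracIs C.R N
  ΓS : S.Γ = vgp v L₀
  ΓN : vgp v N = vgp v L₀
  ΓC : C.Γ = S.Γ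
  χ_eq : C.χ = S.χ
  le : S.R ≤ C.R
  e_pos : 0 < e
  rep : C.Rep S.y 0 e

/-- `f = χ(κ) (g ^ h + u y ^ D + χ(δ) a)`: the visible content and order (3b). -/
def VRep (h : ℕ) (B : BF k v) (f : Ω) (κ : ℝ) (D : ℕ) : Prop :=
  κ ∈ B.Γ ∧ ∃ u, B.Un u ∧ ∃ δ ∈ B.Γ, 0 < δ ∧ ∃ a ∈ B.R, ∃ g ∈ B.R,
    f = B.χ κ * (g ^ h + u * B.y ^ D + B.χ δ * a) ∧
      ((∀ γ ∈ B.Γ, κ ≠ (h : ℝ) * γ) → g = 0) ∧ ((∃ γ ∈ B.Γ, κ = (h : ℝ) * γ) → ¬ h ∣ D)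

end Defs

/-! ## Rows about the two-parameter frames -/

section Two

/-- R2a (start). -/
def Row2a (k Ω : Type u) [Field k] [Field Ω] [Algebra k Ω] (v : RVal Ω) (r : ℕ) : Prop :=
  Ctx2 k v r → ∀ (F : RF2 k v) (f : Ω), f ∈ F.R → f ≠ 0 →
    ∃ F' : RF2 k v, F.Le F' ∧ ∃ κ D, F'.ZRep f κ D

/-- R2b (extraction of the polynomial `A`). -/
def Row2b (k Ω : Type u) [Field k] [Field Ω] [Algebra k Ω] (v : RVal Ω) (r : ℕ) : Prop :=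
  IsAlgClosed Ω → Ctx2 k v r → ∀ (F : RF2 k v) (f : Ω) (κ : ℝ) (m : ℕ), F.ZRep f κ m →
    ∃ (Ω₀ : IntermediateField k Ω) (B : BF k (resv v Ω₀)) (L₀ : IntermediateField k Ω₀)
      (A : Ω₀[X]) (Q : Ω), IsAlgClosed Ω₀ ∧ Core k v r Ω₀ F.z ∧ FracIs B.R L₀ ∧
        IsRF2 F B F.z ∧ HA B A m ∧ F.Un Q ∧ Q * f = F.χ κ * aeval F.z A

/-- The step of the induction on the order, under a side condition `C`. -/
def StepIf (k Ω : Type u) [Field k] [Field Ω] [Algebra k Ω] (v : RVal Ω) (r : ℕ)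
    (C : (Ω₀ : IntermediateField k Ω) → Ω → IntermediateField k Ω₀ → Ω₀[X] → Prop) : Prop :=
  ∀ (Ω₀ : IntermediateField k Ω) (z : Ω), IsAlgClosed Ω₀ → Core k v r Ω₀ z →
    ∀ (B : BF k (resv v Ω₀)) (L₀ : IntermediateField k Ω₀), FracIs B.R L₀ →
      ∀ F : RF2 k v, IsRF2 F B z → ∀ (A : Ω₀[X]) (m : ℕ), 0 < m → HA B A m →
        C Ω₀ z L₀ A → F.Drop (aeval z A) m

variable {k Ω : Type u} [Field k] [Field Ω] [Algebra k Ω]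

/-- The condition of case A1. -/
def CondA1 (v : RVal Ω) (Ω₀ : IntermediateField k Ω) (z : Ω) (L₀ : IntermediateField k Ω₀)
    (A : Ω₀[X]) : Prop :=
  ∃ ζ : Ω₀, Near v A ζ ∧ ∃ ψ ∈ L₀, v (z - (ζ : Ω)) ≤ v (z - (ψ : Ω)) ∧
    ∃ g ∈ L₀, g ≠ 0 ∧ resv v Ω₀ g = v (z - (ψ : Ω))

/-- The condition of case A2. -/
def CondA2 (v : RVal Ω) (Ω₀ : IntermediateField k Ω) (z : Ω) (L₀ : IntermediateField k Ω₀)
    (_ : Ω₀[X]) : Prop :=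
  ∃ ψ ∈ L₀, ∀ g ∈ L₀, g ≠ 0 → resv v Ω₀ g ≠ v (z - (ψ : Ω))

/-- The condition of case (*), `v(L₀)` finitely generated. -/
def CondFG (v : RVal Ω) (Ω₀ : IntermediateField k Ω) (z : Ω) (L₀ : IntermediateField k Ω₀)
    (A : Ω₀[X]) : Prop :=
  Star v z L₀ A ∧ (vgp (resv v Ω₀) L₀).FG

/-- The condition of case (*), `v(L₀)` not finitely generated. -/
def CondNFG (v : RVal Ω) (Ω₀ : IntermediateField k Ω) (z : Ω) (L₀ : IntermediateField k Ω₀)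
    (A : Ω₀[X]) : Prop :=
  Star v z L₀ A ∧ ¬ (vgp (resv v Ω₀) L₀).FG

end Two

/-! ## Rows about one-parameter frames only -/

section One

/-- R3: near and far roots. -/
def Row3 (k Ω : Type u) [Field k] [Field Ω] [Algebra k Ω] (v : RVal Ω) (r : ℕ) : Prop :=
  IsAlgClosed Ω → Ctx k v r → ∀ (A : Polynomial Ω) (m : ℕ), (∀ j, v.Ge 0 (A.coeff j)) →
    (∀ j < m, VPos v (A.coeff j)) → A.coeff m ≠ 0 → v (A.coeff m) = 0 →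
    ∃ (s : Multiset Ω) (U : Polynomial Ω), s.card = m ∧ (∀ ζ ∈ s, A.eval ζ = 0 ∧ VPos v ζ) ∧
      (∀ ζ, A.eval ζ = 0 → VPos v ζ → ζ ∈ s) ∧
      A = (s.map fun ζ => X - C ζ).prod * U ∧ (∀ j, v.Ge 0 (U.coeff j)) ∧
      U.coeff 0 ≠ 0 ∧ v (U.coeff 0) = 0

/-- R6: existence of a pair above any two frames. -/
def Row6 (k Ω : Type u) [Field k] [Field Ω] [Algebra k Ω] (v : RVal Ω) (r : ℕ) : Prop :=
  ∀ p : ℕ, p.Prime → CharP k p → IsAlgClosed k → Ctx k v r →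
    ∀ (L₀ N : IntermediateField k Ω), L₀ ≤ N → ∀ S C : BF k v, BRat S → FracIs S.R L₀ →
      FracIs C.R N → S.Γ = vgp v L₀ → vgp v N = vgp v L₀ → C.Γ = S.Γ →
      (∀ γ ∈ S.Γ, C.Un (S.χ γ / C.χ γ)) → S.y ∈ C.R →
      ∃ S' C' : BF k v, TReach S S' ∧ C'.R = C.R ∧ C'.y = C.y ∧
        ∃ e, IsPair L₀ N S' C' e

/-- R8b: the refined polynomial in case (*), `v(L₀)` finitely generated. -/
def Row8b (k Ω : Type u) [Field k] [Field Ω] [Algebra k Ω] (v : RVal Ω) (r : ℕ) : Prop :=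
  Ctx k v r → ∀ (L₀ N : IntermediateField k Ω) (S C : BF k v) (e : ℕ), IsPair L₀ N S C e →
    ∀ (A : Polynomial Ω) (m : ℕ) (σ a : ℝ) (D : ℕ) (η ψ : Ω),
      (∀ j, A.coeff j ∈ S.R) → η ∈ C.R → ψ ∈ S.R → 0 < m → 0 < D → D < e →
      a ∈ S.Γ → 0 < a → a < σ → C.Rep ((η - ψ) / S.χ a) 0 D →
      (∀ i < m, (hasseDeriv i A).eval η = 0 ∨ (C.Mono ((hasseDeriv i A).eval η) ∧
        ((m : ℝ) - i) * σ ≤ v ((hasseDeriv i A).eval η))) →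
      C.Un ((hasseDeriv m A).eval η) →
      (∀ j, (hasseDeriv j A).eval ψ * S.χ (((j : ℝ) - m) * a) ∈ S.R) ∧
        ∃ l < m, S.Rep (A.eval ψ * S.χ (-((m : ℝ) * a))) 0 l

/-- The hypotheses on `H` in the polygon block (3b). -/
structure HPol (k : Type u) {Ω : Type u} [Field k] [Field Ω] [Algebra k Ω] (v : RVal Ω)
    (L₀ : IntermediateField k Ω) (S₁ : BF k v) (H : Polynomial Ω) (h : ℕ) (σ : ℝ) : Prop where
  frac : FracIs S₁.R L₀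
  mem : ∀ j, H.coeff j ∈ S₁.R
  low : ∀ S : BF k v, TReach S₁ S → ∀ θ ∈ S.R, ∀ i, 0 < i → i < h →
    CGe S (((h : ℝ) - i) * σ) ((hasseDeriv i H).eval θ)
  unit : ∀ S : BF k v, TReach S₁ S → ∀ θ ∈ S.R, CPos S ((hasseDeriv h H).eval θ - 1)
  high : ∀ S : BF k v, TReach S₁ S → ∀ θ ∈ S.R, ∀ i, h < i →
    CPos S ((hasseDeriv i H).eval θ)
  val : ∀ S : BF k v, TReach S₁ S → ∀ θ ∈ S.R, H.eval θ ≠ 0 ∧ v (H.eval θ) < h * σ ∧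
    ∃ δ ∈ vgp v L₀, v (H.eval θ) = h * δ

/-- R11-R14: the polygon block. -/
def RowPOL (k Ω : Type u) [Field k] [Field Ω] [Algebra k Ω] (v : RVal Ω) (r : ℕ) : Prop :=
  ∀ p : ℕ, p.Prime → CharP k p → IsAlgClosed k → Ctx k v r →
    ∀ (L₀ : IntermediateField k Ω) (S₁ : BF k v) (H : Polynomial Ω) (t : ℕ) (σ : ℝ), 0 < t →
      ¬ (vgp v L₀).FG → HPol k v L₀ S₁ H (p ^ t) σ →
      ∃ S : BF k v, TReach S₁ S ∧ ∃ θ ∈ S.R, ∃ γ ∈ S.Γ, ∃ D, 0 < D ∧ D < p ^ t ∧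
        S.Rep (H.eval θ) ((p ^ t : ℕ) * γ) D

end One

end Pool.Agent.LU3
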