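import Pool.Agent.Lib.LU3.Defs

/-!
# LU3: T-steps and T0-steps of one-parameter frames: denominators, rationality
-/

set_option autoImplicit false

namespace Pool.Agent.LU3

open Pool.Agent.H15JM (RVal)
open Pool.Agent.LU1

universe u

variable {k Ω : Type u} [Field k] [Field Ω] [Algebra k Ω] {v : RVal Ω} {r : ℕ}

/-- Quotients of elements of `B.R` whose denominator is a monomial of `B'`. -/
def QM (B B' : BF k v) (f : Ω) : Prop := ∃ a ∈ B.R, ∃ b ∈ B.R, B'.Mono b ∧ f = a / b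

namespace QM

variable {B B' : BF k v} {f g : Ω}

theorem of_mem (hf : f ∈ B.R) : QM B B' f :=
  ⟨f, hf, 1, B.R.one_mem, BF.Mono.un BF.Un.one, by rw [div_one]⟩

theorem mul (hf : QM B B' f) (hg : QM B B' g) : QM B B' (f * g) := by
  obtain ⟨a, ha, b, hb, hm, rfl⟩ := hf
  obtain ⟨c, hc, d, hd, hn, rfl⟩ := hg
  exact ⟨a * c, B.R.mul_mem ha hc, b * d, B.R.mul_mem hb hd, hm.mul hn, by
    rw [div_mul_div_comm]⟩

theorem add (hf : QM B B' f) (hg : QM B B' g) : QM B B' (f + g) := by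
  obtain ⟨a, ha, b, hb, hm, rfl⟩ := hf
  obtain ⟨c, hc, d, hd, hn, rfl⟩ := hg
  exact ⟨a * d + b * c, B.R.add_mem (B.R.mul_mem ha hd) (B.R.mul_mem hb hc), b * d,
    B.R.mul_mem hb hd, hm.mul hn, by rw [div_add_div _ _ hm.ne hn.ne]⟩

/-- The inverse of a monomial of `B'`. -/
theorem inv (hf : QM B B' f) (hm' : B'.Mono f) : QM B B' f⁻¹ := by
  obtain ⟨a, ha, b, hb, hm, rfl⟩ := hf
  refine ⟨b, hb, a, ha, ?_, by rw [inv_div]⟩
  have h1 := hm'.mul hm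
  rwa [div_mul_cancel₀ _ hm.ne] at h1

theorem pow (hf : QM B B' f) (n : ℕ) : QM B B' (f ^ n) := by
  induction n with
  | zero => rw [pow_zero]; exact of_mem B.R.one_mem
  | succ n ih => rw [pow_succ]; exact ih.mul hf

theorem zpow (hf : QM B B' f) (hm' : B'.Mono f) (n : ℤ) : QM B B' (f ^ n) := by
  cases n with
  | ofNat n => simpa using hf.pow n
  | negSucc n => rw [zpow_negSucc]; exact (hf.pow _).inv (hm'.pow _)

end QM

/-- It is enough to look at generators. -/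
theorem den_of_gens {B B' : BF k v} {S : Set Ω} (hR : B'.R = locv v (Algebra.adjoin k S))
    (hS : ∀ s ∈ S, QM B B' s) : BDen B B' := by
  have key : ∀ g ∈ Algebra.adjoin k S, QM B B' g := by
    intro g hg
    induction hg using Algebra.adjoin_induction with
    | mem x hx => exact hS x hx
    | algebraMap c => exact QM.of_mem (B.R.algebraMap_mem c)
    | add x y _ _ hx hy => exact hx.add hy
    | mul x y _ _ hx hy => exact hx.mul hy
  intro f hf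
  rw [hR] at hf
  obtain ⟨a, ha, b, hb, hb0, hvb, rfl⟩ := hf
  have hbm : B'.Mono b := BF.Mono.un ⟨by rw [hR]; exact le_locv _ hb, hb0, hvb⟩
  rw [div_eq_mul_inv]
  exact (key a ha).mul ((key b hb).inv hbm)

theorem BDen.refl (B : BF k v) : BDen B B := fun f hf => QM.of_mem hf

theorem BDen.trans {B B' B'' : BF k v} (h : BDen B B') (h' : BDen B' B'')
    (he : Ext B' B'') : BDen B B'' := by
  intro f hf
  obtain ⟨a, ha, b, hb, hbm, rfl⟩ := h' f hf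
  obtain ⟨a1, ha1, b1, hb1, hm1, rfl⟩ := h a ha
  obtain ⟨a2, ha2, b2, hb2, hm2, rfl⟩ := h b hb
  have h1 : QM B B'' (a1 / b1) := ⟨a1, ha1, b1, hb1, he.mono hm1, rfl⟩
  have h2 : QM B B'' (a2 / b2) := ⟨a2, ha2, b2, hb2, he.mono hm2, rfl⟩
  rw [div_eq_mul_inv]
  exact h1.mul (h2.inv hbm)

theorem BLe.refl (B : BF k v) : BLe B B := ⟨Ext.refl B, BDen.refl B⟩

theorem BLe.trans {B B' B'' : BF k v} (h : BLe B B') (h' : BLe B' B'') : BLe B B'' :=
  ⟨h.ext.trans h'.ext, h.den.trans h'.den h'.ext⟩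

/-- Monomials of `B` are quotients. -/
theorem QM.χ {B B' : BF k v} (he : Ext B B') {γ : ℝ} (hγ : γ ∈ B.Γ) : QM B B' (B.χ γ) := by
  rcases le_total 0 γ with h0 | h0
  · exact QM.of_mem (B.χ_mem γ hγ h0)
  · have h1 : QM B B' (B.χ (-γ)) :=
      QM.of_mem (B.χ_mem (-γ) (B.Γ.neg_mem hγ) (neg_nonneg.2 h0))
    have h2 := h1.inv (he.mono (BF.Mono.χ (B.Γ.neg_mem hγ)))
    rwa [B.χ_neg hγ, inv_inv] at h2

theorem IsTStep.den {B B' : BF k v} {q : ℕ} {c : k} {s : ℝ → ℤ → ℤ}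
    (h : IsTStep B B' q c s) : BDen B B' := by
  have he := h.ext
  have hy : QM B B' B.y := QM.of_mem B.y_mem
  have hw : QM B B' (B.w q) := by
    rw [BF.w, div_eq_mul_inv]
    exact (hy.pow q).mul ((QM.χ he h.q_mem).inv (he.mono (BF.Mono.χ h.q_mem)))
  refine den_of_gens h.R_eq ?_
  rintro f ((hf | ⟨γ', ⟨hγ', -⟩, rfl⟩) | rfl)
  · exact QM.of_mem hf
  · obtain ⟨γ, hγ, l, rfl⟩ := h.mem_Γ' hγ'
    rw [h.χ_eq γ hγ l]
    exact ((QM.χ he hγ).mul (hy.zpow h.mono_y l)).mul (hw.zpow (BF.Mono.un h.un_w) _)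
  · exact hw

theorem IsT0Step.den {B B' : BF k v} {b : ℝ} (h : IsT0Step B B' b) : BDen B B' := by
  have he := h.ext
  refine den_of_gens h.R_eq ?_
  rintro f (hf | rfl)
  · exact QM.of_mem hf
  · rw [div_eq_mul_inv]
    exact (QM.of_mem B.y_mem).mul ((QM.χ he h.b_mem).inv (he.mono (BF.Mono.χ h.b_mem)))

theorem IsTStep.ble {B B' : BF k v} {q : ℕ} {c : k} {s : ℝ → ℤ → ℤ}
    (h : IsTStep B B' q c s) : BLe B B' := ⟨h.ext, IsTStep.den h⟩

theorem TReach.refl (B : BF k v) : TReach B B := Relation.ReflTransGen.refl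

theorem TReach.trans {B B' B'' : BF k v} (h : TReach B B') (h' : TReach B' B'') :
    TReach B B'' := Relation.ReflTransGen.trans h h'

theorem TReach.of_tstep {B B' : BF k v} (h : TStep B B') : TReach B B' :=
  Relation.ReflTransGen.single (Or.inl h)

theorem TReach.of_t0step {B B' : BF k v} {b : ℝ} (h : IsT0Step B B' b) : TReach B B' :=
  Relation.ReflTransGen.single (Or.inr ⟨b, h⟩)

theorem TReach.of_reach {B B' : BF k v} (h : Reach B B') : TReach B B' := by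
  induction h with
  | refl => exact TReach.refl B
  | tail _ h2 ih => exact ih.trans (TReach.of_tstep h2)

theorem TReach.ble {B B' : BF k v} (h : TReach B B') : BLe B B' := by
  induction h with
  | refl => exact BLe.refl B
  | tail _ h2 ih =>
    refine ih.trans ?_
    rcases h2 with ⟨q, c, s, h2⟩ | ⟨b, h2⟩
    · exact ⟨h2.ext, IsTStep.den h2⟩
    · exact ⟨h2.ext, IsT0Step.den h2⟩

theorem TReach.ext {B B' : BF k v} (h : TReach B B') : Ext B B' := h.ble.ext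

theorem TReach.fracIs {B B' : BF k v} (h : TReach B B') {E : IntermediateField k Ω}
    (hE : FracIs B.R E) : FracIs B'.R E := h.ext.fracIs hE

/-- A T-step of a rational frame is rational. -/
theorem IsTStep.brat {B B' : BF k v} {q : ℕ} {c : k} {s : ℝ → ℤ → ℤ}
    (h : IsTStep B B' q c s) (hB : BRat B) : BRat B' := by
  unfold BRat
  have hinv : ∀ f ∈ locv v (Algebra.adjoin k (B'.χ '' {γ | γ ∈ B'.Γ ∧ 0 ≤ γ} ∪ {B'.y})),
      f ≠ 0 → v f = 0 →
      f⁻¹ ∈ locv v (Algebra.adjoin k (B'.χ '' {γ | γ ∈ B'.Γ ∧ 0 ≤ γ} ∪ {B'.y})) :=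
    fun f hf h0 h1 => locv_inv hf h0 h1
  generalize hT : locv v (Algebra.adjoin k (B'.χ '' {γ | γ ∈ B'.Γ ∧ 0 ≤ γ} ∪ {B'.y})) = T
    at hinv
  have hχT : ∀ γ ∈ B'.Γ, 0 ≤ γ → B'.χ γ ∈ T := fun γ hγ h0 => by
    rw [← hT]
    exact le_locv _ (Algebra.subset_adjoin (Or.inl ⟨γ, ⟨hγ, h0⟩, rfl⟩))
  have hyT : B'.y ∈ T := by
    rw [← hT]
    exact le_locv _ (Algebra.subset_adjoin (Or.inr rfl))
  have hwT : B.w q ∈ T := by
    have h1 := T.add_mem hyT (T.algebraMap_mem c)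
    rwa [h.y_eq, sub_add_cancel] at h1
  have hwz : ∀ n : ℤ, (B.w q) ^ n ∈ T := by
    intro n
    cases n with
    | ofNat n => simpa using T.pow_mem hwT n
    | negSucc n =>
      rw [zpow_negSucc]
      refine hinv _ (T.pow_mem hwT _) (pow_ne_zero _ h.w_ne) ?_
      rw [v.map_pow h.w_ne, h.v_w, mul_zero]
  have hmul : ∀ γ ∈ B.Γ, ∀ l : ℤ, 0 ≤ γ + l * v B.y → B.χ γ * B.y ^ l ∈ T := by
    intro γ hγ l h0
    rw [h.χ_mul hγ l]
    refine T.mul_mem (hχT _ ?_ h0) (hwz _)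
    exact B'.Γ.add_mem (h.Γ_le hγ) (by
      rw [← zsmul_eq_mul]; exact B'.Γ.zsmul_mem h.β_mem l)
  have hBT : B.R ≤ T := by
    intro f hf
    rw [hB] at hf
    have key : Algebra.adjoin k (B.χ '' {γ | γ ∈ B.Γ ∧ 0 ≤ γ} ∪ {B.y}) ≤ T := by
      rw [Algebra.adjoin_le_iff]
      rintro f (⟨γ, ⟨hγ, h0⟩, rfl⟩ | rfl)
      · have h1 := hmul γ hγ 0 (by simpa using h0)
        simpa using h1
      · have h1 := hmul 0 B.Γ.zero_mem 1 (by simpa using B.y_pos.le)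
        simpa [B.χ_zero] using h1
    obtain ⟨a, ha, b, hb, hb0, hvb, rfl⟩ := hf
    rw [div_eq_mul_inv]
    exact T.mul_mem (key ha) (hinv _ (key hb) hb0 hvb)
  apply le_antisymm
  · intro f hf
    rw [h.R_eq] at hf
    have key : Algebra.adjoin k ((B.R : Set Ω) ∪ B'.χ '' {γ | γ ∈ B'.Γ ∧ 0 ≤ γ} ∪ {B.w q})
        ≤ T := by
      rw [Algebra.adjoin_le_iff]
      rintro f ((hf | ⟨γ, ⟨hγ, h0⟩, rfl⟩) | rfl)
      · exact hBT hf
      · exact hχT γ hγ h0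
      · exact hwT
    obtain ⟨a, ha, b, hb, hb0, hvb, rfl⟩ := hf
    rw [div_eq_mul_inv]
    exact T.mul_mem (key ha) (hinv _ (key hb) hb0 hvb)
  · rw [← hT]
    intro f hf
    have key : Algebra.adjoin k (B'.χ '' {γ | γ ∈ B'.Γ ∧ 0 ≤ γ} ∪ {B'.y}) ≤ B'.R := by
      rw [Algebra.adjoin_le_iff]
      rintro f (⟨γ, ⟨hγ, h0⟩, rfl⟩ | rfl)
      · exact B'.χ_mem γ hγ h0
      · exact B'.y_mem
    obtain ⟨a, ha, b, hb, hb0, hvb, rfl⟩ := hf
    rw [div_eq_mul_inv]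
    exact B'.R.mul_mem (key ha) (B'.loc _ (key hb) hb0 hvb)

/-- A T0-step of a rational frame is rational. -/
theorem IsT0Step.brat {B B' : BF k v} {b : ℝ} (h : IsT0Step B B' b) (hB : BRat B) :
    BRat B' := by
  unfold BRat
  have hinv : ∀ f ∈ locv v (Algebra.adjoin k (B'.χ '' {γ | γ ∈ B'.Γ ∧ 0 ≤ γ} ∪ {B'.y})),
      f ≠ 0 → v f = 0 →
      f⁻¹ ∈ locv v (Algebra.adjoin k (B'.χ '' {γ | γ ∈ B'.Γ ∧ 0 ≤ γ} ∪ {B'.y})) :=
    fun f hf h0 h1 => locv_inv hf h0 h1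
  generalize hT : locv v (Algebra.adjoin k (B'.χ '' {γ | γ ∈ B'.Γ ∧ 0 ≤ γ} ∪ {B'.y})) = T
    at hinv
  have hχT : ∀ γ ∈ B'.Γ, 0 ≤ γ → B'.χ γ ∈ T := fun γ hγ h0 => by
    rw [← hT]
    exact le_locv _ (Algebra.subset_adjoin (Or.inl ⟨γ, ⟨hγ, h0⟩, rfl⟩))
  have hyT : B'.y ∈ T := by
    rw [← hT]
    exact le_locv _ (Algebra.subset_adjoin (Or.inr rfl))
  have hBT : B.R ≤ T := by
    intro f hf
    rw [hB] at hf
    have key : Algebra.adjoin k (B.χ '' {γ | γ ∈ B.Γ ∧ 0 ≤ γ} ∪ {B.y}) ≤ T := by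
      rw [Algebra.adjoin_le_iff]
      rintro f (⟨γ, ⟨hγ, h0⟩, rfl⟩ | rfl)
      · have h1 := hχT γ (by rw [h.Γ_eq]; exact hγ) h0
        rwa [h.χ_eq] at h1
      · have h1 := T.mul_mem (hχT b (by rw [h.Γ_eq]; exact h.b_mem) h.b_pos.le) hyT
        rwa [h.χ_eq, h.y_eq, mul_div_cancel₀ _ (B.χ_ne _ h.b_mem)] at h1
    obtain ⟨a, ha, b, hb, hb0, hvb, rfl⟩ := hf
    rw [div_eq_mul_inv]
    exact T.mul_mem (key ha) (hinv _ (key hb) hb0 hvb)
  apply le_antisymm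
  · intro f hf
    rw [h.R_eq] at hf
    have key : Algebra.adjoin k ((B.R : Set Ω) ∪ {B.y / B.χ b}) ≤ T := by
      rw [Algebra.adjoin_le_iff]
      rintro f (hf | rfl)
      · exact hBT hf
      · rw [← h.y_eq]; exact hyT
    obtain ⟨a, ha, b, hb, hb0, hvb, rfl⟩ := hf
    rw [div_eq_mul_inv]
    exact T.mul_mem (key ha) (hinv _ (key hb) hb0 hvb)
  · rw [← hT]
    intro f hf
    have key : Algebra.adjoin k (B'.χ '' {γ | γ ∈ B'.Γ ∧ 0 ≤ γ} ∪ {B'.y}) ≤ B'.R := by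
      rw [Algebra.adjoin_le_iff]
      rintro f (⟨γ, ⟨hγ, h0⟩, rfl⟩ | rfl)
      · exact B'.χ_mem γ hγ h0
      · exact B'.y_mem
    obtain ⟨a, ha, b, hb, hb0, hvb, rfl⟩ := hf
    rw [div_eq_mul_inv]
    exact B'.R.mul_mem (key ha) (B'.loc _ (key hb) hb0 hvb)

theorem TReach.brat {B B' : BF k v} (h : TReach B B') (hB : BRat B) : BRat B' := by
  induction h with
  | refl => exact hB
  | tail _ h2 ih =>
    rcases h2 with ⟨q, c, s, h2⟩ | ⟨b, h2⟩
    · exact IsTStep.brat h2 ih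
    · exact IsT0Step.brat h2 ih

end Pool.Agent.LU3
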