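import Pool.Agent.Lib.LU1_h15.Final

/-!
# LU3 (DefectTwo): definitions

Rational frames with two free parameters over a big field `Ω` with a real valuation `v` of
rational rank `r`, transcendence degree `r + 2`, residue field `k`.
One-parameter frames are the landed `LU1.BF` over the subfield `Ω₀` (type `↥Ω₀`) with the
restricted valuation `resv v Ω₀`.
-/

set_option autoImplicit false

open Polynomial

namespace Pool.Agent.LU3

open Pool.Agent.H15JM (RVal)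
open Pool.Agent.LU1

universe u

/-! ## The setting -/

section Setting

variable {k Ω : Type u} [Field k] [Field Ω] [Algebra k Ω]

/-- The standing assumptions on the real valuation `v` of the big field `Ω`: it is trivial on `k`,
has residue field `k`, rational rank `r`, and `Ω` has transcendence degree `r + 2` over `k`. -/
structure Ctx2 (k : Type u) {Ω : Type u} [Field k] [Field Ω] [Algebra k Ω] (v : RVal Ω)
    (r : ℕ) : Prop where
  triv : ∀ c : k, c ≠ 0 → v (algebraMap k Ω c) = 0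
  res : ∀ g : Ω, g ≠ 0 → v g = 0 → ∃ c : k, c ≠ 0 ∧ VPos v (g - algebraMap k Ω c)
  rpos : 0 < r
  trdeg : Algebra.trdeg k Ω = r + 2
  rank : ∃ X : Fin r → Ω, (∀ i, X i ≠ 0) ∧ LinearIndependent ℚ (fun i => v (X i)) ∧
    ∀ g : Ω, g ≠ 0 → v g ∈ Submodule.span ℚ (Set.range fun i => v (X i))

/-- The restriction of a real valuation to an intermediate field. -/
noncomputable def resv (v : RVal Ω) (E : IntermediateField k Ω) : RVal E where
  toFun g := v (g : Ω)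
  map_mul' x y hx hy := by
    have hx' : (x : Ω) ≠ 0 := fun h => hx (Subtype.ext h)
    have hy' : (y : Ω) ≠ 0 := fun h => hy (Subtype.ext h)
    exact v.map_mul hx' hy'
  map_add' x y hx hy hxy := by
    have hx' : (x : Ω) ≠ 0 := fun h => hx (Subtype.ext h)
    have hy' : (y : Ω) ≠ 0 := fun h => hy (Subtype.ext h)
    have hxy' : (x : Ω) + (y : Ω) ≠ 0 := fun h => hxy (Subtype.ext h)
    exact v.map_add hx' hy' hxy'

theorem resv_apply (v : RVal Ω) (E : IntermediateField k Ω) (g : E) :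
    resv v E g = v (g : Ω) := rfl

/-! ## Rational frames with two parameters -/

/-- A rational frame with two free parameters `y, z` (data only; `χ` matters only on `Γ`). -/
structure RF2 (k : Type u) {Ω : Type u} [Field k] [Field Ω] [Algebra k Ω] (v : RVal Ω) where
  /-- the group of exponents -/
  Γ : AddSubgroup ℝ
  fg : Γ.FG
  full : ∀ g : Ω, g ≠ 0 → ∃ m : ℕ, 0 < m ∧ (m : ℝ) * v g ∈ Γ
  /-- the monomials -/
  χ : ℝ → Ω
  χ_ne : ∀ γ ∈ Γ, χ γ ≠ 0
  χ_add : ∀ γ ∈ Γ, ∀ δ ∈ Γ, χ (γ + δ) = χ γ * χ δ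
  χ_val : ∀ γ ∈ Γ, v (χ γ) = γ
  /-- the first free parameter -/
  y : Ω
  y_ne : y ≠ 0
  y_pos : 0 < v y
  /-- the second free parameter -/
  z : Ω
  z_ne : z ≠ 0
  z_pos : 0 < v z
  alg : ∀ g : Ω, IsAlgebraic (Algebra.adjoin k (χ '' {γ | γ ∈ Γ} ∪ {y, z})) g

variable {v : RVal Ω}

/-- The polynomial ring of a rational frame. -/
noncomputable def RF2.P (F : RF2 k v) : Subalgebra k Ω :=
  Algebra.adjoin k (F.χ '' {γ | γ ∈ F.Γ ∧ 0 ≤ γ} ∪ {F.y, F.z})

/-- The local ring of a rational frame. -/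
noncomputable def RF2.R (F : RF2 k v) : Subalgebra k Ω := locv v F.P

/-- The field of a rational frame. -/
noncomputable def RF2.K (F : RF2 k v) : IntermediateField k Ω :=
  IntermediateField.adjoin k (F.χ '' {γ | γ ∈ F.Γ} ∪ {F.y, F.z})

/-- `f` is a unit of `F.R`. -/
def RF2.Un (F : RF2 k v) (f : Ω) : Prop := f ∈ F.R ∧ f ≠ 0 ∧ v f = 0

/-- `f` is a monomial times a unit. -/
def RF2.Mono (F : RF2 k v) (f : Ω) : Prop := f ≠ 0 ∧ v f ∈ F.Γ ∧ F.Un (f / F.χ (v f))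

/-- The frame with `y` and `z` exchanged. -/
def RF2.swap (F : RF2 k v) : RF2 k v where
  Γ := F.Γ
  fg := F.fg
  full := F.full
  χ := F.χ
  χ_ne := F.χ_ne
  χ_add := F.χ_add
  χ_val := F.χ_val
  y := F.z
  y_ne := F.z_ne
  y_pos := F.z_pos
  z := F.y
  z_ne := F.y_ne
  z_pos := F.y_pos
  alg := by
    have h : ({F.z, F.y} : Set Ω) = {F.y, F.z} := Set.pair_comm _ _
    rw [h]
    exact F.alg

/-- `f = χ(κ) (u z^D + y b + χ(δ) a)`, `u` a unit, `δ > 0`: the content of `f` is `κ`, its order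
in `z` modulo `y` is `D`. -/
def RF2.ZRep (F : RF2 k v) (f : Ω) (κ : ℝ) (D : ℕ) : Prop :=
  κ ∈ F.Γ ∧ ∃ u, F.Un u ∧ ∃ b ∈ F.R, ∃ δ ∈ F.Γ, 0 < δ ∧ ∃ a ∈ F.R,
    f = F.χ κ * (u * F.z ^ D + F.y * b + F.χ δ * a)

/-- The same with the roles of `y` and `z` exchanged. -/
def RF2.YRep (F : RF2 k v) (f : Ω) (κ : ℝ) (D : ℕ) : Prop :=
  κ ∈ F.Γ ∧ ∃ u, F.Un u ∧ ∃ b ∈ F.R, ∃ δ ∈ F.Γ, 0 < δ ∧ ∃ a ∈ F.R,
    f = F.χ κ * (u * F.y ^ D + F.z * b + F.χ δ * a)

/-- `F'` is a refinement of `F`. -/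
structure RF2.Le (F F' : RF2 k v) : Prop where
  le : F.R ≤ F'.R
  Γ_le : ∀ γ ∈ F.Γ, γ ∈ F'.Γ
  χ_un : ∀ γ ∈ F.Γ, F'.Un (F.χ γ / F'.χ γ)
  den : ∀ f ∈ F'.R, ∃ a ∈ F.R, ∃ b ∈ F.R, F'.Mono b ∧ f = a / b

/-- What one step of the induction on the order has to achieve for `f`. -/
def RF2.Drop (F : RF2 k v) (f : Ω) (m : ℕ) : Prop :=
  ∃ F' : RF2 k v, F.Le F' ∧ ∃ κ : ℝ, ∃ m' < m, F'.ZRep f κ m' ∨ F'.YRep f κ m'

/-! ## Rational frames with one parameter -/

/-- The frame `B` (one free parameter) is rational. -/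
def BRat (B : BF k v) : Prop :=
  B.R = locv v (Algebra.adjoin k (B.χ '' {γ | γ ∈ B.Γ ∧ 0 ≤ γ} ∪ {B.y}))

/-- Denominators are monomials. -/
def BDen (B B' : BF k v) : Prop := ∀ f ∈ B'.R, ∃ a ∈ B.R, ∃ b ∈ B.R, B'.Mono b ∧ f = a / b

/-- Finitely many T-steps and T0-steps. -/
def TReach : BF k v → BF k v → Prop :=
  Relation.ReflTransGen fun B B' => TStep B B' ∨ ∃ b, IsT0Step B B' b

/-- `B'` refines `B`: this is what is used about finitely many T-steps and T0-steps. -/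
structure BLe (B B' : BF k v) : Prop where
  ext : Ext B B'
  den : BDen B B'

end Setting

/-! ## The embedded statement -/

/-- Embedded local uniformization for rational frames with two parameters. -/
def E2r (k Ω : Type u) [Field k] [Field Ω] [Algebra k Ω] (v : RVal Ω) : Prop :=
  ∀ F : RF2 k v, ∀ T : Finset Ω, (∀ f ∈ T, f ∈ F.K ∧ f ≠ 0) →
    ∃ F' : RF2 k v, F.Le F' ∧ F'.K = F.K ∧ ∀ f ∈ T, F'.Mono f

/-! ## The core: one-parameter frames over `Ω₀` and an element `z` outside `Ω₀` -/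

section Core

variable {k Ω : Type u} [Field k] [Field Ω] [Algebra k Ω]

/-- The standing assumptions of the core blocks. -/
structure Core (k : Type u) {Ω : Type u} [Field k] [Field Ω] [Algebra k Ω] (v : RVal Ω) (r : ℕ)
    (Ω₀ : IntermediateField k Ω) (z : Ω) : Prop where
  c2 : Ctx2 k v r
  c1 : Ctx k (resv v Ω₀) r
  z_pos : 0 < v z
  z_not : z ∉ Ω₀

variable {v : RVal Ω} {Ω₀ : IntermediateField k Ω}

/-- `F` is the two-parameter frame given by the rational frame `B` of a subfield of `Ω₀` and the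
second parameter `z`. -/
structure IsRF2 (F : RF2 k v) (B : BF k (resv v Ω₀)) (z : Ω) : Prop where
  rat : BRat B
  Γ_eq : F.Γ = B.Γ
  χ_eq : ∀ γ ∈ B.Γ, F.χ γ = (B.χ γ : Ω)
  y_eq : F.y = (B.y : Ω)
  z_eq : F.z = z

/-- `A` is a polynomial over `B.R` whose residue polynomial has order exactly `m`. -/
structure HA (B : BF k (resv v Ω₀)) (A : Ω₀[X]) (m : ℕ) : Prop where
  mem : ∀ j, A.coeff j ∈ B.R
  low : ∀ j < m, VPos (resv v Ω₀) (A.coeff j)
  unit : B.Un (A.coeff m)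

/-- A near root of `A`. -/
def Near (v : RVal Ω) (A : Ω₀[X]) (ζ : Ω₀) : Prop :=
  A.eval ζ = 0 ∧ VPos (resv v Ω₀) ζ

/-- Case (*). -/
def Star (v : RVal Ω) (z : Ω) (L₀ : IntermediateField k Ω₀) (A : Ω₀[X]) : Prop :=
  ∀ ψ ∈ L₀, (∃ g ∈ L₀, g ≠ 0 ∧ resv v Ω₀ g = v (z - (ψ : Ω))) ∧
    ∀ ζ : Ω₀, Near v A ζ → v (z - (ψ : Ω)) < v (z - (ζ : Ω))

end Core

end Pool.Agent.LU3
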