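import Pool.Agent.Lib.LU3.Defs
import Pool.Agent.Lib.LU1_h15.EtDesc
import Pool.Agent.Lib.LU1_h15.Mk

/-!
# LU3: basic facts on rational frames with two parameters, construction of refinements
-/

set_option autoImplicit false

open Polynomial

namespace Pool.Agent.LU3

open Pool.Agent.H15JM (RVal)
open Pool.Agent.LU1

universe u

variable {k Ω : Type u} [Field k] [Field Ω] [Algebra k Ω] {v : RVal Ω} {r : ℕ}

/-! ### the context -/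

theorem Ctx2.ge (h : Ctx2 k v r) (c : k) : v.Ge 0 (algebraMap k Ω c) := by
  intro h0
  have : c ≠ 0 := by rintro rfl; simp at h0
  rw [h.triv c this]

/-- An element of the valuation ring has a residue in `k`. -/
theorem Ctx2.residue (h : Ctx2 k v r) {f : Ω} (hf : v.Ge 0 f) :
    ∃ c : k, VPos v (f - algebraMap k Ω c) := by
  by_cases h0 : f = 0
  · exact ⟨0, by simp [h0, VPos.zero]⟩
  rcases (hf h0).lt_or_eq with h1 | h1
  · exact ⟨0, by rw [_root_.map_zero, sub_zero]; exact fun _ => h1⟩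
  · obtain ⟨c, -, hc⟩ := h.res f h0 h1.symm
    exact ⟨c, hc⟩

theorem Ctx2.const_eq_zero (h : Ctx2 k v r) {c : k} (hc : VPos v (algebraMap k Ω c)) :
    c = 0 := by
  by_contra h0
  have := hc (by simpa using h0)
  rw [h.triv c h0] at this
  exact lt_irrefl _ this

theorem Ctx2.adjoin_nonneg (h : Ctx2 k v r) {S : Set Ω} (hS : ∀ f ∈ S, v.Ge 0 f) :
    ∀ f ∈ Algebra.adjoin k S, v.Ge 0 f := by
  intro f hf
  induction hf using Algebra.adjoin_induction with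
  | mem x hx => exact hS x hx
  | algebraMap c => exact h.ge c
  | add x y _ _ hx hy => exact hx.add hy
  | mul x y _ _ hx hy => simpa using hx.mul hy

/-! ### basic facts on `RF2` -/

namespace RF2

variable (F : RF2 k v)

theorem χ_zero : F.χ 0 = 1 := by
  have h := F.χ_add 0 F.Γ.zero_mem 0 F.Γ.zero_mem
  rw [add_zero] at h
  exact (mul_right_cancel₀ (F.χ_ne 0 F.Γ.zero_mem) (by rw [one_mul]; exact h)).symm

theorem χ_neg {γ : ℝ} (h : γ ∈ F.Γ) : F.χ (-γ) = (F.χ γ)⁻¹ := by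
  have h1 := F.χ_add γ h (-γ) (F.Γ.neg_mem h)
  rw [add_neg_cancel, F.χ_zero] at h1
  exact (inv_eq_of_mul_eq_one_right h1.symm).symm

theorem χ_sub {γ δ : ℝ} (h : γ ∈ F.Γ) (h' : δ ∈ F.Γ) : F.χ (γ - δ) = F.χ γ / F.χ δ := by
  rw [sub_eq_add_neg, F.χ_add γ h _ (F.Γ.neg_mem h'), F.χ_neg h', div_eq_mul_inv]

theorem χ_memP {γ : ℝ} (h : γ ∈ F.Γ) (h0 : 0 ≤ γ) : F.χ γ ∈ F.P :=
  Algebra.subset_adjoin (Or.inl ⟨γ, ⟨h, h0⟩, rfl⟩)

theorem y_memP : F.y ∈ F.P := Algebra.subset_adjoin (Or.inr (Or.inl rfl))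

theorem z_memP : F.z ∈ F.P := Algebra.subset_adjoin (Or.inr (Or.inr rfl))

theorem P_le_R : F.P ≤ F.R := le_locv _

theorem χ_mem {γ : ℝ} (h : γ ∈ F.Γ) (h0 : 0 ≤ γ) : F.χ γ ∈ F.R := F.P_le_R (F.χ_memP h h0)

theorem y_mem : F.y ∈ F.R := F.P_le_R F.y_memP

theorem z_mem : F.z ∈ F.R := F.P_le_R F.z_memP

theorem loc {f : Ω} (hf : f ∈ F.R) (h0 : f ≠ 0) (h1 : v f = 0) : f⁻¹ ∈ F.R :=
  locv_inv hf h0 h1

theorem nonneg (h : Ctx2 k v r) : ∀ f ∈ F.R, v.Ge 0 f := by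
  refine locv_nonneg (h.adjoin_nonneg ?_)
  rintro f (⟨γ, ⟨hγ, h0⟩, rfl⟩ | rfl | rfl)
  · intro _; rw [F.χ_val γ hγ]; exact h0
  · exact fun _ => F.y_pos.le
  · exact fun _ => F.z_pos.le

theorem exists_pos : ∃ δ ∈ F.Γ, 0 < δ := by
  obtain ⟨m, hm, h1⟩ := F.full F.y F.y_ne
  exact ⟨_, h1, mul_pos (by exact_mod_cast hm) F.y_pos⟩

variable {F}

theorem Un.inv {f : Ω} (h : F.Un f) : F.Un f⁻¹ :=
  ⟨F.loc h.1 h.2.1 h.2.2, inv_ne_zero h.2.1, by rw [v.map_inv h.2.1, h.2.2, neg_zero]⟩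

theorem Un.mul {f g : Ω} (h : F.Un f) (h' : F.Un g) : F.Un (f * g) :=
  ⟨F.R.mul_mem h.1 h'.1, mul_ne_zero h.2.1 h'.2.1, by
    rw [v.map_mul h.2.1 h'.2.1, h.2.2, h'.2.2, add_zero]⟩

theorem Un.div {f g : Ω} (h : F.Un f) (h' : F.Un g) : F.Un (f / g) := by
  rw [div_eq_mul_inv]; exact h.mul h'.inv

theorem Un.one : F.Un 1 := ⟨F.R.one_mem, one_ne_zero, v.map_one⟩

theorem Un.pow {f : Ω} (h : F.Un f) (n : ℕ) : F.Un (f ^ n) := by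
  induction n with
  | zero => simpa using Un.one
  | succ n ih => rw [pow_succ]; exact ih.mul h

theorem Un.zpow {f : Ω} (h : F.Un f) (n : ℤ) : F.Un (f ^ n) := by
  cases n with
  | ofNat n => simpa using h.pow n
  | negSucc n => rw [zpow_negSucc]; exact (h.pow _).inv

theorem Un.const (h : Ctx2 k v r) {c : k} (hc : c ≠ 0) : F.Un (algebraMap k Ω c) :=
  ⟨F.R.algebraMap_mem c, by simpa using hc, h.triv c hc⟩

/-- A unit plus an element of the ring of positive value is a unit. -/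
theorem Un.add_vpos {f g : Ω} (h : F.Un f) (hg : g ∈ F.R) (hv : VPos v g) : F.Un (f + g) := by
  have := val_add_vpos h.2.1 h.2.2 hv
  exact ⟨F.R.add_mem h.1 hg, this.1, this.2⟩

theorem vpos_y : VPos v F.y := fun _ => F.y_pos

theorem vpos_z : VPos v F.z := fun _ => F.z_pos

theorem vpos_χ {γ : ℝ} (h : γ ∈ F.Γ) (h0 : 0 < γ) : VPos v (F.χ γ) := by
  intro _; rw [F.χ_val γ h]; exact h0

theorem mono_iff {f : Ω} : F.Mono f ↔ ∃ γ ∈ F.Γ, ∃ u, F.Un u ∧ f = F.χ γ * u := by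
  constructor
  · rintro ⟨h0, h1, h2⟩
    exact ⟨v f, h1, _, h2, by rw [mul_div_cancel₀ _ (F.χ_ne _ h1)]⟩
  · rintro ⟨γ, hγ, u, hu, rfl⟩
    have hv : v (F.χ γ * u) = γ := by
      rw [v.map_mul (F.χ_ne γ hγ) hu.2.1, F.χ_val γ hγ, hu.2.2, add_zero]
    refine ⟨mul_ne_zero (F.χ_ne γ hγ) hu.2.1, by rw [hv]; exact hγ, ?_⟩
    rw [hv, mul_div_cancel_left₀ _ (F.χ_ne γ hγ)]
    exact hu

theorem Mono.mul {f g : Ω} (h : F.Mono f) (h' : F.Mono g) : F.Mono (f * g) := by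
  rw [mono_iff] at *
  obtain ⟨γ, hγ, u, hu, rfl⟩ := h
  obtain ⟨δ, hδ, w, hw, rfl⟩ := h'
  exact ⟨γ + δ, F.Γ.add_mem hγ hδ, u * w, hu.mul hw, by rw [F.χ_add γ hγ δ hδ]; ring⟩

theorem Mono.inv {f : Ω} (h : F.Mono f) : F.Mono f⁻¹ := by
  rw [mono_iff] at *
  obtain ⟨γ, hγ, u, hu, rfl⟩ := h
  exact ⟨-γ, F.Γ.neg_mem hγ, u⁻¹, hu.inv, by rw [F.χ_neg hγ, mul_inv]⟩

theorem Mono.div {f g : Ω} (h : F.Mono f) (h' : F.Mono g) : F.Mono (f / g) := by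
  rw [div_eq_mul_inv]; exact h.mul h'.inv

theorem Mono.un {u : Ω} (h : F.Un u) : F.Mono u :=
  mono_iff.2 ⟨0, F.Γ.zero_mem, u, h, by rw [F.χ_zero, one_mul]⟩

theorem Mono.χ {γ : ℝ} (h : γ ∈ F.Γ) : F.Mono (F.χ γ) :=
  mono_iff.2 ⟨γ, h, 1, Un.one, by rw [mul_one]⟩

theorem Mono.pow {f : Ω} (h : F.Mono f) (n : ℕ) : F.Mono (f ^ n) := by
  induction n with
  | zero => simpa using Mono.un Un.one
  | succ n ih => rw [pow_succ]; exact ih.mul h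

theorem Mono.zpow {f : Ω} (h : F.Mono f) (n : ℤ) : F.Mono (f ^ n) := by
  cases n with
  | ofNat n => simpa using h.pow n
  | negSucc n => rw [zpow_negSucc]; exact (h.pow _).inv

theorem Mono.mem {f : Ω} (h : F.Mono f) (h0 : 0 ≤ v f) : f ∈ F.R := by
  obtain ⟨h1, h2, h3⟩ := h
  have h4 : f = F.χ (v f) * (f / F.χ (v f)) := by rw [mul_div_cancel₀ _ (F.χ_ne _ h2)]
  rw [h4]
  exact F.R.mul_mem (F.χ_mem h2 h0) h3.1

/-- The monomials `χ(γ)`, `γ ≥ δ`, are divisible by `χ(δ)`. -/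
theorem χ_dvd (F : RF2 k v) {γ δ : ℝ} (h : γ ∈ F.Γ) (h' : δ ∈ F.Γ) (hle : δ ≤ γ) :
    ∃ a ∈ F.R, F.χ γ = F.χ δ * a :=
  ⟨F.χ (γ - δ), F.χ_mem (F.Γ.sub_mem h h') (sub_nonneg.2 hle), by
    rw [← F.χ_add δ h' _ (F.Γ.sub_mem h h')]; congr 1; ring⟩

/-! ### the ideal generated by `y` and the monomials -/

/-- `x = y b + χ(δ) a`, `δ > 0`. -/
def YHi (F : RF2 k v) (x : Ω) : Prop :=
  ∃ b ∈ F.R, ∃ δ ∈ F.Γ, 0 < δ ∧ ∃ a ∈ F.R, x = F.y * b + F.χ δ * a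

theorem YHi.zero (F : RF2 k v) : F.YHi 0 := by
  obtain ⟨δ, hδ, h0⟩ := F.exists_pos
  exact ⟨0, F.R.zero_mem, δ, hδ, h0, 0, F.R.zero_mem, by simp⟩

theorem YHi.add {x x' : Ω} (hx : F.YHi x) (hx' : F.YHi x') : F.YHi (x + x') := by
  obtain ⟨b, hb, δ, hδ, h0, a, ha, rfl⟩ := hx
  obtain ⟨b', hb', δ', hδ', h0', a', ha', rfl⟩ := hx'
  rcases le_total δ δ' with hle | hle
  · obtain ⟨e, he, h2⟩ := F.χ_dvd hδ' hδ hle
    refine ⟨b + b', F.R.add_mem hb hb', δ, hδ, h0, a + e * a',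
      F.R.add_mem ha (F.R.mul_mem he ha'), ?_⟩
    rw [h2]; ring
  · obtain ⟨e, he, h2⟩ := F.χ_dvd hδ hδ' hle
    refine ⟨b + b', F.R.add_mem hb hb', δ', hδ', h0', e * a + a',
      F.R.add_mem (F.R.mul_mem he ha) ha', ?_⟩
    rw [h2]; ring

theorem YHi.mul {x c : Ω} (hx : F.YHi x) (hc : c ∈ F.R) : F.YHi (c * x) := by
  obtain ⟨b, hb, δ, hδ, h0, a, ha, rfl⟩ := hx
  exact ⟨c * b, F.R.mul_mem hc hb, δ, hδ, h0, c * a, F.R.mul_mem hc ha, by ring⟩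

theorem YHi.neg {x : Ω} (hx : F.YHi x) : F.YHi (-x) := by
  have := hx.mul (F.R.neg_mem F.R.one_mem)
  rwa [neg_one_mul] at this

theorem YHi.sum {ι : Type*} (s : Finset ι) (f : ι → Ω) (h : ∀ i ∈ s, F.YHi (f i)) :
    F.YHi (∑ i ∈ s, f i) := by
  classical
  induction s using Finset.induction_on with
  | empty => simpa using YHi.zero F
  | insert a s ha ih =>
    rw [Finset.sum_insert ha]
    exact (h a (Finset.mem_insert_self a s)).add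
      (ih fun i hi => h i (Finset.mem_insert_of_mem hi))

theorem YHi.χ {γ : ℝ} (h : γ ∈ F.Γ) (h0 : 0 < γ) {a : Ω} (ha : a ∈ F.R) :
    F.YHi (F.χ γ * a) :=
  ⟨0, F.R.zero_mem, γ, h, h0, a, ha, by simp⟩

theorem YHi.y {b : Ω} (hb : b ∈ F.R) : F.YHi (F.y * b) := by
  obtain ⟨δ, hδ, h0⟩ := F.exists_pos
  exact ⟨b, hb, δ, hδ, h0, 0, F.R.zero_mem, by simp⟩

theorem YHi.mem {x : Ω} (hx : F.YHi x) : x ∈ F.R := by
  obtain ⟨b, hb, δ, hδ, h0, a, ha, rfl⟩ := hx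
  exact F.R.add_mem (F.R.mul_mem F.y_mem hb) (F.R.mul_mem (F.χ_mem hδ h0.le) ha)

theorem YHi.vpos (h : Ctx2 k v r) {x : Ω} (hx : F.YHi x) : VPos v x := by
  obtain ⟨b, hb, δ, hδ, h0, a, ha, rfl⟩ := hx
  exact (vpos_y.mul (F.nonneg h b hb)).add ((vpos_χ hδ h0).mul (F.nonneg h a ha))

theorem zrep_iff {f : Ω} {κ : ℝ} {D : ℕ} (hκ : κ ∈ F.Γ) :
    F.ZRep f κ D ↔ ∃ u, F.Un u ∧ F.YHi (f / F.χ κ - u * F.z ^ D) := by
  have h0 := F.χ_ne κ hκ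
  constructor
  · rintro ⟨-, u, hu, b, hb, δ, hδ, h1, a, ha, rfl⟩
    refine ⟨u, hu, b, hb, δ, hδ, h1, a, ha, ?_⟩
    rw [mul_div_cancel_left₀ _ h0]; ring
  · rintro ⟨u, hu, b, hb, δ, hδ, h1, a, ha, h2⟩
    refine ⟨hκ, u, hu, b, hb, δ, hδ, h1, a, ha, ?_⟩
    rw [sub_eq_iff_eq_add, div_eq_iff h0] at h2
    rw [h2]; ring

end RF2

/-! ### quotients whose denominator is a monomial -/

/-- The quotients `a / b` with `a, b ∈ R` and `b` a monomial of `F'`. -/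
def Den (R : Subalgebra k Ω) (F' : RF2 k v) : Subalgebra k Ω where
  carrier := {f | ∃ a ∈ R, ∃ b ∈ R, F'.Mono b ∧ f = a / b}
  mul_mem' := by
    rintro f g ⟨a, ha, b, hb, hb0, rfl⟩ ⟨c, hc, d, hd, hd0, rfl⟩
    exact ⟨a * c, R.mul_mem ha hc, b * d, R.mul_mem hb hd, hb0.mul hd0, by
      rw [div_mul_div_comm]⟩
  add_mem' := by
    rintro f g ⟨a, ha, b, hb, hb0, rfl⟩ ⟨c, hc, d, hd, hd0, rfl⟩
    exact ⟨a * d + b * c, R.add_mem (R.mul_mem ha hd) (R.mul_mem hb hc), b * d,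
      R.mul_mem hb hd, hb0.mul hd0, by rw [div_add_div _ _ hb0.1 hd0.1]⟩
  algebraMap_mem' := by
    intro c
    exact ⟨algebraMap k Ω c, R.algebraMap_mem c, 1, R.one_mem, RF2.Mono.un RF2.Un.one, by
      rw [div_one]⟩

theorem mem_den {R : Subalgebra k Ω} {F' : RF2 k v} {f : Ω} :
    f ∈ Den R F' ↔ ∃ a ∈ R, ∃ b ∈ R, F'.Mono b ∧ f = a / b := Iff.rfl

theorem le_den {R : Subalgebra k Ω} {F' : RF2 k v} {f : Ω} (hf : f ∈ R) : f ∈ Den R F' :=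
  ⟨f, hf, 1, R.one_mem, RF2.Mono.un RF2.Un.one, by rw [div_one]⟩

theorem den_inv {R : Subalgebra k Ω} {F' : RF2 k v} {f : Ω} (hf : f ∈ Den R F')
    (h : F'.Mono f) : f⁻¹ ∈ Den R F' := by
  obtain ⟨a, ha, b, hb, hb0, rfl⟩ := hf
  have h1 : F'.Mono a := by
    have := h.mul hb0
    rwa [div_mul_cancel₀ _ hb0.1] at this
  exact ⟨b, hb, a, ha, h1, by rw [inv_div]⟩

theorem den_zpow {R : Subalgebra k Ω} {F' : RF2 k v} {f : Ω} (hf : f ∈ Den R F')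
    (h : F'.Mono f) (n : ℤ) : f ^ n ∈ Den R F' := by
  cases n with
  | ofNat n => simpa using (Den R F').pow_mem hf n
  | negSucc n =>
    rw [zpow_negSucc]
    exact den_inv ((Den R F').pow_mem hf _) (h.pow _)

/-- Criterion for `F.Le F'`. -/
theorem RF2.le_of {F F' : RF2 k v} (hΓ : ∀ γ ∈ F.Γ, γ ∈ F'.Γ)
    (hχ : ∀ γ ∈ F.Γ, F'.Un (F.χ γ / F'.χ γ)) (hy : F.y ∈ F'.R) (hz : F.z ∈ F'.R)
    (dχ : ∀ γ ∈ F'.Γ, 0 ≤ γ → F'.χ γ ∈ Den F.R F') (dy : F'.y ∈ Den F.R F')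
    (dz : F'.z ∈ Den F.R F') : F.Le F' := by
  refine ⟨?_, hΓ, hχ, ?_⟩
  · refine locv_le (Algebra.adjoin_le ?_) fun f hf h0 h1 => F'.loc hf h0 h1
    rintro f (⟨γ, ⟨hγ, h0⟩, rfl⟩ | rfl | rfl)
    · have h1 : F.χ γ = F'.χ γ * (F.χ γ / F'.χ γ) := by
        rw [mul_div_cancel₀ _ (F'.χ_ne _ (hΓ γ hγ))]
      rw [SetLike.mem_coe, h1]
      exact F'.R.mul_mem (F'.χ_mem (hΓ γ hγ) h0) (hχ γ hγ).1
    · exact hy
    · exact hz
  · have hP : F'.P ≤ Den F.R F' := by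
      refine Algebra.adjoin_le ?_
      rintro f (⟨γ, ⟨hγ, h0⟩, rfl⟩ | rfl | rfl)
      · exact dχ γ hγ h0
      · exact dy
      · exact dz
    intro f hf
    obtain ⟨a, ha, b, hb, hb0, hvb, rfl⟩ := hf
    have hbm : F'.Mono b := RF2.Mono.un ⟨F'.P_le_R hb, hb0, hvb⟩
    have h1 := (Den F.R F').mul_mem (hP ha) (den_inv (hP hb) hbm)
    rw [← div_eq_mul_inv] at h1
    exact h1

/-! ### construction -/

/-- Multiplicative family of monomials with the right values. -/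
structure MonD (v : RVal Ω) (Γ : AddSubgroup ℝ) (X : ℝ → Ω) : Prop where
  ne : ∀ γ ∈ Γ, X γ ≠ 0
  add : ∀ γ ∈ Γ, ∀ δ ∈ Γ, X (γ + δ) = X γ * X δ
  val : ∀ γ ∈ Γ, v (X γ) = γ

/-- A frame with given data, from another frame. -/
noncomputable def mkRF2 (F : RF2 k v) {Γ : AddSubgroup ℝ} {X : ℝ → Ω} (hX : MonD v Γ X)
    (fg : Γ.FG) (hΓ : ∀ γ ∈ F.Γ, γ ∈ Γ) {y z : Ω} (y_ne : y ≠ 0) (y_pos : 0 < v y)
    (z_ne : z ≠ 0) (z_pos : 0 < v z)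
    (hg : ∀ f ∈ F.χ '' {γ | γ ∈ F.Γ} ∪ {F.y, F.z},
      f ∈ quo (Algebra.adjoin k (X '' {γ | γ ∈ Γ} ∪ {y, z}))) : RF2 k v where
  Γ := Γ
  fg := fg
  full := fun g hg => by
    obtain ⟨m, hm, h1⟩ := F.full g hg
    exact ⟨m, hm, hΓ _ h1⟩
  χ := X
  χ_ne := hX.ne
  χ_add := hX.add
  χ_val := hX.val
  y := y
  y_ne := y_ne
  y_pos := y_pos
  z := z
  z_ne := z_ne
  z_pos := z_pos
  alg := by
    intro g
    set R := Algebra.adjoin k (X '' {γ | γ ∈ Γ} ∪ {y, z}) with hR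
    have h1 : Algebra.adjoin k (F.χ '' {γ | γ ∈ F.Γ} ∪ {F.y, F.z}) ≤ (quo R).toSubalgebra :=
      Algebra.adjoin_le hg
    have h2 : IsAlgebraic (quo R).toSubalgebra g := isAlgebraic_of_le h1 (F.alg g)
    have h3 : FracIs R (quo R) := ⟨fun f hf => le_quo hf, fun g hg => hg⟩
    exact isAlgebraic_of_frac h3 h2

end Pool.Agent.LU3
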