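import Pool.Agent.Lib.LU3.Rows

/-!
# LU3: assembly of the embedded statement `E2r` from the rows
-/

set_option autoImplicit false

open Polynomial

namespace Pool.Agent.LU3

open Pool.Agent.H15JM (RVal)
open Pool.Agent.LU1

universe u

variable {k Ω : Type u} [Field k] [Field Ω] [Algebra k Ω] {v : RVal Ω} {r : ℕ}

namespace Asm

variable (F : RF2 k v)

theorem χ_zero : F.χ 0 = 1 := by
  have h1 := F.χ_add 0 F.Γ.zero_mem 0 F.Γ.zero_mem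
  rw [add_zero] at h1
  exact (mul_right_cancel₀ (F.χ_ne 0 F.Γ.zero_mem) (by rw [one_mul]; exact h1)).symm

theorem P_le : F.P ≤ F.R := le_locv _

theorem χ_mem {γ : ℝ} (hγ : γ ∈ F.Γ) (h0 : 0 ≤ γ) : F.χ γ ∈ F.R :=
  P_le F (Algebra.subset_adjoin (Or.inl ⟨γ, ⟨hγ, h0⟩, rfl⟩))

theorem y_mem : F.y ∈ F.R := P_le F (Algebra.subset_adjoin (Or.inr (Or.inl rfl)))

theorem z_mem : F.z ∈ F.R := P_le F (Algebra.subset_adjoin (Or.inr (Or.inr rfl)))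

theorem χ_neg {γ : ℝ} (hγ : γ ∈ F.Γ) : F.χ (-γ) = (F.χ γ)⁻¹ := by
  have h1 := F.χ_add γ hγ (-γ) (F.Γ.neg_mem hγ)
  rw [add_neg_cancel, χ_zero] at h1
  exact eq_inv_of_mul_eq_one_right h1.symm

variable {F}

theorem loc {f : Ω} (hf : f ∈ F.R) (h0 : f ≠ 0) (h1 : v f = 0) : f⁻¹ ∈ F.R :=
  locv_inv hf h0 h1

theorem Un.mul {f g : Ω} (hf : F.Un f) (hg : F.Un g) : F.Un (f * g) :=
  ⟨F.R.mul_mem hf.1 hg.1, mul_ne_zero hf.2.1 hg.2.1, by
    rw [v.map_mul hf.2.1 hg.2.1, hf.2.2, hg.2.2, add_zero]⟩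

theorem Un.inv {f : Ω} (hf : F.Un f) : F.Un f⁻¹ :=
  ⟨loc hf.1 hf.2.1 hf.2.2, inv_ne_zero hf.2.1, by rw [v.map_inv hf.2.1, hf.2.2, neg_zero]⟩

theorem Un.div {f g : Ω} (hf : F.Un f) (hg : F.Un g) : F.Un (f / g) := by
  rw [div_eq_mul_inv]; exact Un.mul hf (Un.inv hg)

theorem Un.one : F.Un 1 := ⟨F.R.one_mem, one_ne_zero, v.map_one⟩

theorem mono_iff {f : Ω} : F.Mono f ↔ ∃ γ ∈ F.Γ, ∃ u, F.Un u ∧ f = F.χ γ * u := by
  constructor
  · rintro ⟨h1, h2, h3⟩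
    exact ⟨v f, h2, _, h3, by rw [mul_div_cancel₀ _ (F.χ_ne _ h2)]⟩
  · rintro ⟨γ, hγ, u, hu, rfl⟩
    have hne := mul_ne_zero (F.χ_ne γ hγ) hu.2.1
    have hv : v (F.χ γ * u) = γ := by
      rw [v.map_mul (F.χ_ne γ hγ) hu.2.1, F.χ_val γ hγ, hu.2.2, add_zero]
    refine ⟨hne, by rw [hv]; exact hγ, ?_⟩
    rw [hv, mul_div_cancel_left₀ _ (F.χ_ne γ hγ)]
    exact hu

theorem Mono.mul {f g : Ω} (hf : F.Mono f) (hg : F.Mono g) : F.Mono (f * g) := by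
  obtain ⟨γ, hγ, u, hu, rfl⟩ := mono_iff.1 hf
  obtain ⟨δ, hδ, w, hw, rfl⟩ := mono_iff.1 hg
  exact mono_iff.2 ⟨γ + δ, F.Γ.add_mem hγ hδ, u * w, Un.mul hu hw, by
    rw [F.χ_add γ hγ δ hδ, mul_mul_mul_comm]⟩

theorem Mono.inv {f : Ω} (hf : F.Mono f) : F.Mono f⁻¹ := by
  obtain ⟨γ, hγ, u, hu, rfl⟩ := mono_iff.1 hf
  exact mono_iff.2 ⟨-γ, F.Γ.neg_mem hγ, u⁻¹, Un.inv hu, by
    rw [χ_neg F hγ, mul_inv]⟩

theorem Mono.div {f g : Ω} (hf : F.Mono f) (hg : F.Mono g) : F.Mono (f / g) := by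
  rw [div_eq_mul_inv]; exact Mono.mul hf (Mono.inv hg)

theorem Mono.un {u : Ω} (hu : F.Un u) : F.Mono u :=
  mono_iff.2 ⟨0, F.Γ.zero_mem, u, hu, by rw [χ_zero, one_mul]⟩

theorem Mono.χ {γ : ℝ} (hγ : γ ∈ F.Γ) : F.Mono (F.χ γ) :=
  mono_iff.2 ⟨γ, hγ, 1, Un.one, by rw [mul_one]⟩

theorem Un.le {F' : RF2 k v} (h : F.Le F') {u : Ω} (hu : F.Un u) : F'.Un u :=
  ⟨h.le hu.1, hu.2.1, hu.2.2⟩

theorem Mono.le {F' : RF2 k v} (h : F.Le F') {f : Ω} (hf : F.Mono f) : F'.Mono f := by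
  obtain ⟨γ, hγ, u, hu, rfl⟩ := mono_iff.1 hf
  refine mono_iff.2 ⟨γ, h.Γ_le γ hγ, F.χ γ / F'.χ γ * u, Un.mul (h.χ_un γ hγ) (Un.le h hu), ?_⟩
  rw [← mul_assoc, mul_div_cancel₀ _ (F'.χ_ne γ (h.Γ_le γ hγ))]

theorem Le.refl : F.Le F :=
  ⟨le_rfl, fun _ h => h, fun γ hγ => by rw [div_self (F.χ_ne γ hγ)]; exact Un.one,
    fun f hf => ⟨f, hf, 1, F.R.one_mem, Mono.un Un.one, by rw [div_one]⟩⟩

theorem Le.trans {F' F'' : RF2 k v} (h : F.Le F') (h' : F'.Le F'') : F.Le F'' := by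
  refine ⟨h.le.trans h'.le, fun γ hγ => h'.Γ_le γ (h.Γ_le γ hγ), fun γ hγ => ?_, ?_⟩
  · have h1 := Un.le h' (h.χ_un γ hγ)
    have h2 := h'.χ_un γ (h.Γ_le γ hγ)
    have h3 := Un.mul h1 h2
    rwa [div_mul_div_cancel₀ (F'.χ_ne γ (h.Γ_le γ hγ))] at h3
  · intro f hf
    obtain ⟨a, ha, b, hb, hbm, rfl⟩ := h'.den f hf
    obtain ⟨a1, ha1, b1, hb1, hm1, rfl⟩ := h.den a ha
    obtain ⟨a2, ha2, b2, hb2, hm2, rfl⟩ := h.den b hb
    have hm1' := Mono.le h' hm1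
    have hm2' := Mono.le h' hm2
    have ha2m : F''.Mono a2 := by
      have h1 := Mono.mul hbm hm2'
      rwa [div_mul_cancel₀ _ hm2'.1] at h1
    exact ⟨a1 * b2, F.R.mul_mem ha1 hb2, b1 * a2, F.R.mul_mem hb1 ha2, Mono.mul hm1' ha2m, by
      rw [div_div_div_eq]⟩

theorem swap_R : F.swap.R = F.R := by
  unfold RF2.R RF2.P RF2.swap
  simp only
  rw [Set.pair_comm]

theorem swap_un {f : Ω} : F.swap.Un f ↔ F.Un f := by
  unfold RF2.Un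
  rw [swap_R]

theorem swap_mono {f : Ω} : F.swap.Mono f ↔ F.Mono f := by
  unfold RF2.Mono
  rw [swap_un]
  rfl

theorem Le.of_swap {F' : RF2 k v} (h : F.swap.Le F') : F.Le F' := by
  refine ⟨?_, h.Γ_le, h.χ_un, fun f hf => ?_⟩
  · rw [← swap_R]; exact h.le
  · obtain ⟨a, ha, b, hb, h1, h2⟩ := h.den f hf
    rw [swap_R] at ha hb
    exact ⟨a, ha, b, hb, h1, h2⟩

theorem swap_zrep {f : Ω} {κ : ℝ} {D : ℕ} (h : F.YRep f κ D) : F.swap.ZRep f κ D := by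
  obtain ⟨hκ, u, hu, b, hb, δ, hδ, hδ0, a, ha, he⟩ := h
  refine ⟨hκ, u, swap_un.2 hu, b, ?_, δ, hδ, hδ0, a, ?_, he⟩
  · rw [swap_R]; exact hb
  · rw [swap_R]; exact ha

theorem nonneg (h2 : Ctx2 k v r) {f : Ω} (hf : f ∈ F.R) : v.Ge 0 f := by
  have key : ∀ g ∈ F.P, v.Ge 0 g := by
    intro g hg
    induction hg using Algebra.adjoin_induction with
    | mem x hx =>
      rcases hx with ⟨γ, ⟨hγ, h0⟩, rfl⟩ | rfl | rfl
      · intro _; rw [F.χ_val γ hγ]; exact h0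
      · exact fun _ => F.y_pos.le
      · exact fun _ => F.z_pos.le
    | algebraMap c =>
      intro h0
      have hc : c ≠ 0 := by rintro rfl; simp at h0
      rw [h2.triv c hc]
    | add x y _ _ hx hy => exact hx.add hy
    | mul x y _ _ hx hy =>
      have := hx.mul hy
      rwa [add_zero] at this
  exact locv_nonneg key f hf

/-- An element of order `0` is a monomial. -/
theorem mono_of_zrep (h2 : Ctx2 k v r) {f : Ω} {κ : ℝ} (h : F.ZRep f κ 0) : F.Mono f := by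
  obtain ⟨hκ, u, hu, b, hb, δ, hδ, hδ0, a, ha, rfl⟩ := h
  have h1 : VPos v (F.y * b + F.χ δ * a) := by
    have hyb : VPos v (F.y * b) := by
      intro h0
      have hb0 := right_ne_zero_of_mul h0
      rw [v.map_mul F.y_ne hb0]
      have := nonneg h2 hb hb0
      have := F.y_pos
      linarith
    have hxa : VPos v (F.χ δ * a) := by
      intro h0
      have ha0 := right_ne_zero_of_mul h0
      rw [v.map_mul (F.χ_ne δ hδ) ha0, F.χ_val δ hδ]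
      have := nonneg h2 ha ha0
      linarith
    exact hyb.add hxa
  have h3 : F.Un (u + (F.y * b + F.χ δ * a)) := by
    by_cases h0 : F.y * b + F.χ δ * a = 0
    · rw [h0, add_zero]; exact hu
    · obtain ⟨h4, h5⟩ := v.add_of_lt hu.2.1 h0 (by rw [hu.2.2]; exact h1 h0)
      exact ⟨F.R.add_mem hu.1 (F.R.add_mem (F.R.mul_mem (y_mem F) hb)
        (F.R.mul_mem (χ_mem F hδ hδ0.le) ha)), h4, by rw [h5, hu.2.2]⟩
  refine mono_iff.2 ⟨κ, hκ, _, h3, ?_⟩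
  rw [pow_zero, mul_one, add_assoc]

theorem R_le_K : ∀ f ∈ F.R, f ∈ F.K := by
  have key : ∀ g ∈ F.P, g ∈ F.K := by
    intro g hg
    have h1 : F.P ≤ F.K.toSubalgebra := by
      unfold RF2.P
      rw [Algebra.adjoin_le_iff]
      rintro f (⟨γ, ⟨hγ, -⟩, rfl⟩ | hf)
      · exact IntermediateField.subset_adjoin k _ (Or.inl ⟨γ, hγ, rfl⟩)
      · exact IntermediateField.subset_adjoin k _ (Or.inr hf)
    exact h1 hg
  rintro f ⟨a, ha, b, hb, -, -, rfl⟩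
  exact F.K.div_mem (key a ha) (key b hb)

theorem K_le_of {E : IntermediateField k Ω} (h : ∀ f ∈ F.R, f ∈ E) : F.K ≤ E := by
  unfold RF2.K
  rw [IntermediateField.adjoin_le_iff]
  rintro f (⟨γ, hγ, rfl⟩ | rfl | rfl)
  · rcases le_total 0 γ with h0 | h0
    · exact h _ (χ_mem F hγ h0)
    · have h1 := E.inv_mem (h _ (χ_mem F (F.Γ.neg_mem hγ) (neg_nonneg.2 h0)))
      rwa [χ_neg F hγ, inv_inv] at h1
  · exact h _ (y_mem F)
  · exact h _ (z_mem F)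

theorem Le.K_eq {F' : RF2 k v} (h : F.Le F') : F'.K = F.K := by
  apply le_antisymm
  · apply K_le_of
    intro f hf
    obtain ⟨a, ha, b, hb, -, rfl⟩ := h.den f hf
    exact F.K.div_mem (R_le_K a ha) (R_le_K b hb)
  · exact K_le_of fun f hf => R_le_K f (h.le hf)

theorem exists_frac {f : Ω} (hf : f ∈ F.K) : ∃ a ∈ F.R, ∃ b ∈ F.R, b ≠ 0 ∧ f = a / b := by
  unfold RF2.K at hf
  induction hf using IntermediateField.adjoin_induction with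
  | mem x hx =>
    rcases hx with ⟨γ, hγ, rfl⟩ | rfl | rfl
    · rcases le_total 0 γ with h0 | h0
      · exact ⟨_, χ_mem F hγ h0, 1, F.R.one_mem, one_ne_zero, by rw [div_one]⟩
      · refine ⟨1, F.R.one_mem, _, χ_mem F (F.Γ.neg_mem hγ) (neg_nonneg.2 h0),
          F.χ_ne _ (F.Γ.neg_mem hγ), ?_⟩
        rw [χ_neg F hγ, one_div, inv_inv]
    · exact ⟨_, y_mem F, 1, F.R.one_mem, one_ne_zero, by rw [div_one]⟩
    · exact ⟨_, z_mem F, 1, F.R.one_mem, one_ne_zero, by rw [div_one]⟩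
  | algebraMap c =>
    exact ⟨_, F.R.algebraMap_mem c, 1, F.R.one_mem, one_ne_zero, by rw [div_one]⟩
  | add x y _ _ hx hy =>
    obtain ⟨a, ha, b, hb, hb0, rfl⟩ := hx
    obtain ⟨c, hc, d, hd, hd0, rfl⟩ := hy
    exact ⟨a * d + b * c, F.R.add_mem (F.R.mul_mem ha hd) (F.R.mul_mem hb hc), b * d,
      F.R.mul_mem hb hd, mul_ne_zero hb0 hd0, by rw [div_add_div _ _ hb0 hd0]⟩
  | inv x _ hx =>
    obtain ⟨a, ha, b, hb, hb0, rfl⟩ := hx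
    by_cases ha0 : a = 0
    · exact ⟨0, F.R.zero_mem, 1, F.R.one_mem, one_ne_zero, by simp [ha0]⟩
    · exact ⟨b, hb, a, ha, ha0, by rw [inv_div]⟩
  | mul x y _ _ hx hy =>
    obtain ⟨a, ha, b, hb, hb0, rfl⟩ := hx
    obtain ⟨c, hc, d, hd, hd0, rfl⟩ := hy
    exact ⟨a * c, F.R.mul_mem ha hc, b * d, F.R.mul_mem hb hd, mul_ne_zero hb0 hd0, by
      rw [div_mul_div_comm]⟩

end Asm

open Asm

/-- The step without side condition. -/
def StepAll (k Ω : Type u) [Field k] [Field Ω] [Algebra k Ω] (v : RVal Ω) (r : ℕ) : Prop :=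
  StepIf k Ω v r fun _ _ _ _ => True

theorem step_all (hA1 : StepIf k Ω v r (CondA1 v)) (hA2 : StepIf k Ω v r (CondA2 v))
    (hFG : StepIf k Ω v r (CondFG v)) (hNFG : StepIf k Ω v r (CondNFG v)) :
    StepAll k Ω v r := by
  intro Ω₀ z hcl hc B L₀ hL F hF A m hm hA _
  by_cases h1 : CondA2 v Ω₀ z L₀ A
  · exact hA2 Ω₀ z hcl hc B L₀ hL F hF A m hm hA h1
  by_cases h2 : CondA1 v Ω₀ z L₀ A
  · exact hA1 Ω₀ z hcl hc B L₀ hL F hF A m hm hA h2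
  have hS : Star v z L₀ A := by
    intro ψ hψ
    have h3 : ∃ g ∈ L₀, g ≠ 0 ∧ resv v Ω₀ g = v (z - (ψ : Ω)) := by
      by_contra hcon
      apply h1
      refine ⟨ψ, hψ, fun g hg hg0 he => hcon ⟨g, hg, hg0, he⟩⟩
    refine ⟨h3, fun ζ hζ => ?_⟩
    by_contra hcon
    exact h2 ⟨ζ, hζ, ψ, hψ, not_lt.1 hcon, h3⟩
  by_cases h3 : (vgp (resv v Ω₀) L₀).FG
  · exact hFG Ω₀ z hcl hc B L₀ hL F hF A m hm hA ⟨hS, h3⟩
  · exact hNFG Ω₀ z hcl hc B L₀ hL F hF A m hm hA ⟨hS, h3⟩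

theorem exists_mono_of_zrep (hcl : IsAlgClosed Ω) (h2 : Ctx2 k v r)
    (h2b : Row2b k Ω v r) (hst : StepAll k Ω v r) (m : ℕ) :
    ∀ (F : RF2 k v) (f : Ω) (κ : ℝ), F.ZRep f κ m → ∃ F' : RF2 k v, F.Le F' ∧ F'.Mono f := by
  induction m using Nat.strong_induction_on with
  | _ m ih =>
    intro F f κ hf
    rcases Nat.eq_zero_or_pos m with rfl | hm
    · exact ⟨F, Le.refl, mono_of_zrep h2 hf⟩
    obtain ⟨Ω₀, B, L₀, A, Q, hcl0, hc, hL, hF, hA, hQ, he⟩ := h2b hcl h2 F f κ m hf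
    obtain ⟨F1, h1, κ1, m1, hm1, h3⟩ := hst Ω₀ F.z hcl0 hc B L₀ hL F hF A m hm hA trivial
    have h4 : ∃ F2 : RF2 k v, F1.Le F2 ∧ F2.Mono (aeval F.z A) := by
      rcases h3 with h3 | h3
      · exact ih m1 hm1 F1 _ κ1 h3
      · obtain ⟨F2, h5, h6⟩ := ih m1 hm1 F1.swap _ κ1 (swap_zrep h3)
        exact ⟨F2, Le.of_swap h5, h6⟩
    obtain ⟨F2, h5, h6⟩ := h4
    have h7 := Le.trans h1 h5
    refine ⟨F2, h7, ?_⟩
    have h8 : f = F.χ κ * aeval F.z A / Q := by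
      rw [← he, mul_div_cancel_left₀ _ hQ.2.1]
    rw [h8]
    exact Mono.div (Mono.mul (Mono.le h7 (Mono.χ hf.1)) h6) (Mono.le h7 (Mono.un hQ))

theorem e2r_of (hcl : IsAlgClosed Ω) (h2 : Ctx2 k v r) (h2a : Row2a k Ω v r)
    (h2b : Row2b k Ω v r) (hA1 : StepIf k Ω v r (CondA1 v)) (hA2 : StepIf k Ω v r (CondA2 v))
    (hFG : StepIf k Ω v r (CondFG v)) (hNFG : StepIf k Ω v r (CondNFG v)) : E2r k Ω v := by
  have hst := step_all hA1 hA2 hFG hNFG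
  have hmem : ∀ (F : RF2 k v) (f : Ω), f ∈ F.R → f ≠ 0 →
      ∃ F' : RF2 k v, F.Le F' ∧ F'.Mono f := by
    intro F f hf hf0
    obtain ⟨F1, h1, κ, D, h3⟩ := h2a h2 F f hf hf0
    obtain ⟨F2, h4, h5⟩ := exists_mono_of_zrep hcl h2 h2b hst D F1 f κ h3
    exact ⟨F2, Le.trans h1 h4, h5⟩
  intro F T
  classical
  induction T using Finset.induction_on with
  | empty => exact fun _ => ⟨F, Le.refl, rfl, by simp⟩
  | insert f T _ ih =>
    intro hT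
    obtain ⟨F1, h1, hK1, hm1⟩ := ih fun g hg => hT g (Finset.mem_insert_of_mem hg)
    obtain ⟨hfE, hf0⟩ := hT f (Finset.mem_insert_self f T)
    rw [← hK1] at hfE
    obtain ⟨a, ha, b, hb, hb0, rfl⟩ := exists_frac hfE
    have ha0 : a ≠ 0 := by
      rintro rfl
      exact hf0 (zero_div b)
    obtain ⟨F2, h3, h4⟩ := hmem F1 a ha ha0
    obtain ⟨F3, h5, h6⟩ := hmem F2 b (h3.le hb) hb0
    have h7 := Le.trans h1 (Le.trans h3 h5)
    refine ⟨F3, h7, Le.K_eq h7, fun g hg => ?_⟩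
    rcases Finset.mem_insert.mp hg with rfl | hg
    · exact Mono.div (Mono.le h5 h4) h6
    · exact Mono.le h5 (Mono.le h3 (hm1 g hg))

end Pool.Agent.LU3
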